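import Pool.Agent.Isoptic.Defs

set_option autoImplicit false

open Real Set Metric EuclideanGeometry

namespace Pool.Agent.Isoptic

/-- `⟨w, u(θ)⟩` with `u(θ) = (cos θ, sin θ)` -/
noncomputable def dt (w : Plane) (θ : ℝ) : ℝ := w 0 * Real.cos θ + w 1 * Real.sin θ

/-- the unit vector `(cos θ, sin θ)` -/
noncomputable def uv (θ : ℝ) : Plane := !₂[Real.cos θ, Real.sin θ]

theorem dt_add (w w' : Plane) (θ : ℝ) : dt (w + w') θ = dt w θ + dt w' θ := by
  unfold dt; simp; ring

theorem dt_sub (w w' : Plane) (θ : ℝ) : dt (w - w') θ = dt w θ - dt w' θ := by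
  unfold dt; simp; ring

theorem dt_smul (a : ℝ) (w : Plane) (θ : ℝ) : dt (a • w) θ = a * dt w θ := by
  unfold dt; simp; ring

theorem dt_neg (w : Plane) (θ : ℝ) : dt (-w) θ = - dt w θ := by
  unfold dt; simp; ring

theorem dt_zero (θ : ℝ) : dt 0 θ = 0 := by
  unfold dt; simp

theorem dt_uv (θ φ : ℝ) : dt (uv θ) φ = Real.cos (θ - φ) := by
  unfold dt uv; rw [Real.cos_sub]; simp

theorem dt_rot (w : Plane) (θ δ : ℝ) :
    dt w (θ + δ) = dt w θ * Real.cos δ + dt w (θ + π / 2) * Real.sin δ := by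
  unfold dt
  rw [Real.cos_add, Real.sin_add, Real.cos_add_pi_div_two, Real.sin_add_pi_div_two]
  ring

theorem dt_add_pi (w : Plane) (θ : ℝ) : dt w (θ + π) = - dt w θ := by
  unfold dt
  rw [Real.cos_add_pi, Real.sin_add_pi]
  ring

theorem dt_add_two_pi (w : Plane) (θ : ℝ) : dt w (θ + 2 * π) = dt w θ := by
  unfold dt
  rw [Real.cos_add_two_pi, Real.sin_add_two_pi]

theorem inner_eq (w w' : Plane) (θ : ℝ) :
    inner ℝ w w' = dt w θ * dt w' θ + dt w (θ + π / 2) * dt w' (θ + π / 2) := by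
  unfold dt
  rw [Real.cos_add_pi_div_two, Real.sin_add_pi_div_two, PiLp.inner_apply]
  simp only [RCLike.inner_apply, conj_trivial, Fin.sum_univ_two]
  have := Real.sin_sq_add_cos_sq θ
  linear_combination (-(w 0 * w' 0 + w 1 * w' 1)) * this

theorem norm_sq_eq (w : Plane) (θ : ℝ) : ‖w‖ ^ 2 = dt w θ ^ 2 + dt w (θ + π / 2) ^ 2 := by
  rw [← real_inner_self_eq_norm_sq, inner_eq w w θ]
  ring

theorem inner_uv (w : Plane) (θ : ℝ) : inner ℝ (uv θ) w = dt w θ := by
  rw [inner_eq _ _ θ, dt_uv, dt_uv]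
  have h1 : θ - (θ + π / 2) = -(π / 2) := by ring
  rw [h1, sub_self]
  simp

theorem norm_uv (θ : ℝ) : ‖uv θ‖ = 1 := by
  have h := norm_sq_eq (uv θ) θ
  rw [dt_uv, dt_uv] at h
  have h1 : θ - (θ + π / 2) = -(π / 2) := by ring
  rw [h1, sub_self] at h
  simp at h
  rcases h with h | h
  · exact h
  · have := norm_nonneg (uv θ); linarith

theorem dt_le_norm (w : Plane) (θ : ℝ) : |dt w θ| ≤ ‖w‖ := by
  have := norm_sq_eq w θ
  apply abs_le_of_sq_le_sq _ (norm_nonneg _)
  nlinarith [sq_nonneg (dt w (θ + π / 2))]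

theorem dt_continuous : Continuous (fun p : Plane × ℝ => dt p.1 p.2) := by
  unfold dt
  fun_prop

/-- polar form of a vector -/
theorem exists_uv (w : Plane) : ∃ θ : ℝ, dt w θ = ‖w‖ := by
  by_cases hw : w = 0
  · exact ⟨0, by rw [hw, dt_zero, norm_zero]⟩
  · have hw' : 0 < ‖w‖ := norm_pos_iff.2 hw
    have h := norm_sq_eq w 0
    have h0 : dt w 0 = w 0 := by unfold dt; simp
    have h1 : dt w (0 + π / 2) = w 1 := by unfold dt; simp
    rw [h0, h1] at h
    -- use the argument of the complex number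
    set z : ℂ := ⟨w 0, w 1⟩ with hz
    have hzn : ‖z‖ = ‖w‖ := by
      have : ‖z‖ ^ 2 = ‖w‖ ^ 2 := by
        rw [h, Complex.sq_norm, Complex.normSq_apply]; ring
      exact (pow_left_inj₀ (norm_nonneg _) (norm_nonneg _) two_ne_zero).1 this
    have hz0 : z ≠ 0 := by
      rw [← norm_pos_iff, hzn]; exact hw'
    refine ⟨z.arg, ?_⟩
    unfold dt
    rw [Complex.cos_arg hz0, Complex.sin_arg, hzn]
    simp only [hz]
    have : w 0 * (w 0 / ‖w‖) + w 1 * (w 1 / ‖w‖) = (w 0 ^ 2 + w 1 ^ 2) / ‖w‖ := by ring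
    rw [this, ← h, sq, mul_div_assoc, div_self hw'.ne', mul_one]

/-- The angle between two vectors in the open half plane around the direction `ψ`. -/
theorem angle_eq_arctan {w w' : Plane} {ψ : ℝ} (h : 0 < dt w ψ) (h' : 0 < dt w' ψ) :
    InnerProductGeometry.angle w w' =
      |Real.arctan (dt w (ψ + π / 2) / dt w ψ) - Real.arctan (dt w' (ψ + π / 2) / dt w' ψ)| := by
  set X := dt w ψ
  set X' := dt w' ψ
  set Y := dt w (ψ + π / 2)
  set Y' := dt w' (ψ + π / 2)
  have hi : inner ℝ w w' = X * X' + Y * Y' := inner_eq w w' ψ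
  have hn : ‖w‖ = X * √(1 + (Y / X) ^ 2) := by
    have h1 : ‖w‖ ^ 2 = X ^ 2 + Y ^ 2 := norm_sq_eq w ψ
    have h2 : X * √(1 + (Y / X) ^ 2) = √(X ^ 2 + Y ^ 2) := by
      have : X ^ 2 + Y ^ 2 = X ^ 2 * (1 + (Y / X) ^ 2) := by field_simp
      rw [this, Real.sqrt_mul (by positivity), Real.sqrt_sq h.le]
    rw [h2, ← h1, Real.sqrt_sq (norm_nonneg _)]
  have hn' : ‖w'‖ = X' * √(1 + (Y' / X') ^ 2) := by
    have h1 : ‖w'‖ ^ 2 = X' ^ 2 + Y' ^ 2 := norm_sq_eq w' ψ
    have h2 : X' * √(1 + (Y' / X') ^ 2) = √(X' ^ 2 + Y' ^ 2) := by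
      have : X' ^ 2 + Y' ^ 2 = X' ^ 2 * (1 + (Y' / X') ^ 2) := by field_simp
      rw [this, Real.sqrt_mul (by positivity), Real.sqrt_sq h'.le]
    rw [h2, ← h1, Real.sqrt_sq (norm_nonneg _)]
  have hcos : inner ℝ w w' / (‖w‖ * ‖w'‖) =
      Real.cos (|Real.arctan (Y / X) - Real.arctan (Y' / X')|) := by
    rw [Real.cos_abs, Real.cos_sub, Real.cos_arctan, Real.cos_arctan, Real.sin_arctan,
      Real.sin_arctan, hi, hn, hn']
    have p1 : 0 < √(1 + (Y / X) ^ 2) := Real.sqrt_pos.2 (by positivity)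
    have p2 : 0 < √(1 + (Y' / X') ^ 2) := Real.sqrt_pos.2 (by positivity)
    field_simp
  unfold InnerProductGeometry.angle
  rw [hcos, Real.arccos_cos (abs_nonneg _)]
  have a1 := Real.arctan_lt_pi_div_two (Y / X)
  have a2 := Real.neg_pi_div_two_lt_arctan (Y / X)
  have a3 := Real.arctan_lt_pi_div_two (Y' / X')
  have a4 := Real.neg_pi_div_two_lt_arctan (Y' / X')
  rw [abs_le]
  constructor <;> linarith

theorem angle_le_of_slopes {w w' : Plane} {ψ a b : ℝ} (h : 0 < dt w ψ) (h' : 0 < dt w' ψ)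
    (h1 : dt w (ψ + π / 2) ≤ b * dt w ψ) (h2 : a * dt w ψ ≤ dt w (ψ + π / 2))
    (h1' : dt w' (ψ + π / 2) ≤ b * dt w' ψ) (h2' : a * dt w' ψ ≤ dt w' (ψ + π / 2)) :
    InnerProductGeometry.angle w w' ≤ Real.arctan b - Real.arctan a := by
  rw [angle_eq_arctan h h', abs_le]
  have e1 : Real.arctan (dt w (ψ + π / 2) / dt w ψ) ≤ Real.arctan b :=
    Real.arctan_mono ((div_le_iff₀ h).2 h1)
  have e2 : Real.arctan a ≤ Real.arctan (dt w (ψ + π / 2) / dt w ψ) :=
    Real.arctan_mono ((le_div_iff₀ h).2 h2)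
  have e1' : Real.arctan (dt w' (ψ + π / 2) / dt w' ψ) ≤ Real.arctan b :=
    Real.arctan_mono ((div_le_iff₀ h').2 h1')
  have e2' : Real.arctan a ≤ Real.arctan (dt w' (ψ + π / 2) / dt w' ψ) :=
    Real.arctan_mono ((le_div_iff₀ h').2 h2')
  constructor <;> linarith

/-! ### angle of sight -/

theorem angle_def (A P B : Plane) : ∠ A P B = InnerProductGeometry.angle (A - P) (B - P) := rfl

theorem bddAbove_angles (S : Set Plane) (P : Plane) :
    BddAbove {x : ℝ | ∃ A ∈ S, ∃ B ∈ S, x = ∠ A P B} := by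
  refine ⟨π, ?_⟩
  rintro x ⟨A, _, B, _, rfl⟩
  exact InnerProductGeometry.angle_le_pi _ _

theorem le_angleOfSight {S : Set Plane} {P A B : Plane} (hA : A ∈ S) (hB : B ∈ S) :
    ∠ A P B ≤ angleOfSight S P :=
  le_csSup (bddAbove_angles S P) ⟨A, hA, B, hB, rfl⟩

theorem angleOfSight_le {S : Set Plane} {P : Plane} {α : ℝ} (hα : 0 ≤ α)
    (h : ∀ A ∈ S, ∀ B ∈ S, ∠ A P B ≤ α) : angleOfSight S P ≤ α := by
  unfold angleOfSight
  apply Real.sSup_le _ hα
  rintro x ⟨A, hA, B, hB, rfl⟩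
  exact h A hA B hB

/-- Exact value of the angle of sight from a circumscribed wedge of half opening `a` around the
direction `ψ`. -/
theorem angleOfSight_of_wedge {S : Set Plane} {P : Plane} {ψ a : ℝ} (ha : 0 < a) (ha' : a < π / 2)
    (hP : P ∉ S) (h1 : ∀ A ∈ S, dt (A - P) (ψ + π / 2) ≤ Real.tan a * dt (A - P) ψ)
    (h2 : ∀ A ∈ S, -(Real.tan a) * dt (A - P) ψ ≤ dt (A - P) (ψ + π / 2))
    {A B : Plane} (hA : A ∈ S) (hB : B ∈ S)
    (hA1 : dt (A - P) (ψ + π / 2) = Real.tan a * dt (A - P) ψ)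
    (hB1 : dt (B - P) (ψ + π / 2) = -(Real.tan a) * dt (B - P) ψ) :
    angleOfSight S P = 2 * a := by
  have htan : 0 < Real.tan a := Real.tan_pos_of_pos_of_lt_pi_div_two ha ha'
  have hpos : ∀ A ∈ S, 0 < dt (A - P) ψ := by
    intro A hA
    have e1 := h1 A hA
    have e2 := h2 A hA
    have h0 : 0 ≤ dt (A - P) ψ := by
      by_contra hneg
      push Not at hneg
      nlinarith
    rcases h0.lt_or_eq with h | h
    · exact h
    · exfalso
      rw [← h] at e1 e2
      have e3 : dt (A - P) (ψ + π / 2) = 0 := by linarith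
      have e4 := norm_sq_eq (A - P) ψ
      rw [← h, e3] at e4
      have e5 : A - P = 0 := by
        rw [← norm_eq_zero]
        have : ‖A - P‖ ^ 2 = 0 := by rw [e4]; ring
        exact (pow_eq_zero_iff two_ne_zero).1 this
      have : A = P := sub_eq_zero.1 e5
      rw [this] at hA
      exact hP hA
  have hat : Real.arctan (Real.tan a) = a := Real.arctan_tan (by linarith) ha'
  have hatn : Real.arctan (-Real.tan a) = -a := by rw [Real.arctan_neg, hat]
  apply le_antisymm
  · apply angleOfSight_le (by linarith)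
    intro A hA B hB
    have := angle_le_of_slopes (hpos A hA) (hpos B hB) (h1 A hA) (h2 A hA) (h1 B hB) (h2 B hB)
    rw [hat, hatn] at this
    rw [angle_def]
    linarith
  · refine le_trans ?_ (le_angleOfSight hA hB)
    rw [angle_def, angle_eq_arctan (hpos A hA) (hpos B hB), hA1, hB1,
      mul_div_assoc, div_self (hpos A hA).ne', mul_one, mul_div_assoc, div_self (hpos B hB).ne',
      mul_one, hat, hatn]
    rw [abs_of_nonneg (by linarith)]
    linarith

/-- In a compact set the angle of sight is attained. -/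
theorem exists_angleOfSight {S : Set Plane} (hS : IsCompact S) (hne : S.Nonempty) {P : Plane}
    (hP : P ∉ S) : ∃ A ∈ S, ∃ B ∈ S, ∠ A P B = angleOfSight S P := by
  have hc : ContinuousOn (fun p : Plane × Plane =>
      InnerProductGeometry.angle (p.1 - P) (p.2 - P)) (S ×ˢ S) := by
    intro p hp
    apply ContinuousAt.continuousWithinAt
    have h1 : p.1 - P ≠ 0 := fun h => hP ((sub_eq_zero.1 h) ▸ hp.1)
    have h2 : p.2 - P ≠ 0 := fun h => hP ((sub_eq_zero.1 h) ▸ hp.2)
    have h3 : ContinuousAt (fun p : Plane × Plane => (p.1 - P, p.2 - P)) p :=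
      ((continuous_fst.sub continuous_const).prodMk
        (continuous_snd.sub continuous_const)).continuousAt
    exact ContinuousAt.comp (g := fun y : Plane × Plane => InnerProductGeometry.angle y.1 y.2)
      (f := fun p : Plane × Plane => (p.1 - P, p.2 - P))
      (InnerProductGeometry.continuousAt_angle (x := (p.1 - P, p.2 - P)) h1 h2) h3
  obtain ⟨p, hp, hmax⟩ := (hS.prod hS).exists_isMaxOn (hne.prod hne) hc
  rw [isMaxOn_iff] at hmax
  have h5 : angleOfSight S P ≤ InnerProductGeometry.angle (p.1 - P) (p.2 - P) := by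
    apply angleOfSight_le (InnerProductGeometry.angle_nonneg _ _)
    intro A hA B hB
    rw [angle_def]
    exact hmax (A, B) (Set.mk_mem_prod hA hB)
  obtain ⟨hp1, hp2⟩ := Set.mem_prod.1 hp
  have h6 := le_angleOfSight (P := P) hp1 hp2
  refine ⟨p.1, hp1, p.2, hp2, le_antisymm h6 ?_⟩
  rw [angle_def]
  exact h5

/-- Strict bound of the angle of sight inside an open wedge. -/
theorem angleOfSight_lt_of_wedge {S : Set Plane} (hS : IsCompact S) {P : Plane} {ψ a : ℝ}
    (ha : 0 < a) (ha' : a < π / 2)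
    (h1 : ∀ A ∈ S, dt (A - P) (ψ + π / 2) < Real.tan a * dt (A - P) ψ)
    (h2 : ∀ A ∈ S, -(Real.tan a) * dt (A - P) ψ < dt (A - P) (ψ + π / 2)) :
    angleOfSight S P < 2 * a := by
  rcases S.eq_empty_or_nonempty with rfl | hne
  · have : angleOfSight (∅ : Set Plane) P = 0 := by
      unfold angleOfSight
      simp
    rw [this]; linarith
  have htan : 0 < Real.tan a := Real.tan_pos_of_pos_of_lt_pi_div_two ha ha'
  have hpos : ∀ A ∈ S, 0 < dt (A - P) ψ := by
    intro A hA
    have e1 := h1 A hA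
    have e2 := h2 A hA
    by_contra hneg
    push Not at hneg
    nlinarith
  have hP : P ∉ S := by
    intro h
    have := hpos P h
    rw [sub_self, dt_zero] at this
    exact lt_irrefl _ this
  obtain ⟨A, hA, B, hB, hAB⟩ := exists_angleOfSight hS hne hP
  rw [← hAB, angle_def, angle_eq_arctan (hpos A hA) (hpos B hB)]
  have hat : Real.arctan (Real.tan a) = a := Real.arctan_tan (by linarith) ha'
  have hatn : Real.arctan (-Real.tan a) = -a := by rw [Real.arctan_neg, hat]
  have key : ∀ A ∈ S, -a < Real.arctan (dt (A - P) (ψ + π / 2) / dt (A - P) ψ) ∧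
      Real.arctan (dt (A - P) (ψ + π / 2) / dt (A - P) ψ) < a := by
    intro A hA
    constructor
    · rw [← hatn]
      exact Real.arctan_strictMono ((lt_div_iff₀ (hpos A hA)).2 (h2 A hA))
    · have := Real.arctan_strictMono ((div_lt_iff₀ (hpos A hA)).2 (h1 A hA))
      rwa [hat] at this
  have kA := key A hA
  have kB := key B hB
  rw [abs_lt]
  constructor <;> linarith [kA.1, kA.2, kB.1, kB.2]

end Pool.Agent.Isoptic
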