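import Pool.Agent.Isoptic.Main

set_option autoImplicit false

open Real Set Metric EuclideanGeometry MeasureTheory Filter Topology

namespace Pool.Agent.Isoptic

/-! ### Continuity of the angle of sight off the body -/

theorem angleOfSight_continuousOn {S : Set Plane} (hS : IsCompact S) :
    ContinuousOn (angleOfSight S) Sᶜ := by
  rw [continuousOn_iff_continuous_domRestrict]
  have : CompactSpace S := isCompact_iff_compactSpace.1 hS
  set F : ↥(Sᶜ) → (↥S × ↥S) → ℝ := fun P ab =>
    InnerProductGeometry.angle ((ab.1 : Plane) - (P : Plane)) ((ab.2 : Plane) - (P : Plane)) with hF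
  have hcont : Continuous (Function.uncurry F) := by
    rw [continuous_iff_continuousAt]
    rintro ⟨P, A, B⟩
    have h1 : (A : Plane) - (P : Plane) ≠ 0 := fun h => P.2 ((sub_eq_zero.1 h) ▸ A.2)
    have h2 : (B : Plane) - (P : Plane) ≠ 0 := fun h => P.2 ((sub_eq_zero.1 h) ▸ B.2)
    have h3 : ContinuousAt (fun p : ↥(Sᶜ) × (↥S × ↥S) =>
        ((p.2.1 : Plane) - (p.1 : Plane), (p.2.2 : Plane) - (p.1 : Plane))) (P, A, B) := by
      fun_prop
    exact ContinuousAt.comp (g := fun y : Plane × Plane => InnerProductGeometry.angle y.1 y.2)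
      (f := fun p : ↥(Sᶜ) × (↥S × ↥S) =>
        ((p.2.1 : Plane) - (p.1 : Plane), (p.2.2 : Plane) - (p.1 : Plane)))
      (x := (P, A, B))
      (InnerProductGeometry.continuousAt_angle
        (x := ((A : Plane) - (P : Plane), (B : Plane) - (P : Plane))) h1 h2) h3
  have hcont' : Continuous ↿F := hcont
  have h := (isCompact_univ (X := ↥S × ↥S)).continuous_sSup (f := F) hcont'
  have heq : (Sᶜ).domRestrict (angleOfSight S) = fun P => sSup (F P '' univ) := by
    funext P
    rw [Set.domRestrict_apply]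
    unfold angleOfSight
    congr 1
    ext x
    constructor
    · rintro ⟨A, hA, B, hB, rfl⟩
      exact ⟨(⟨A, hA⟩, ⟨B, hB⟩), mem_univ _, rfl⟩
    · rintro ⟨⟨A, B⟩, -, rfl⟩
      exact ⟨A, A.2, B, B.2, rfl⟩
  rw [heq]
  exact h

/-! ### A corner of the body in a wedge of the right opening is a limit of isoptic points -/

theorem pos_of_wedge {w : Plane} {ψ a : ℝ} (ha : 0 < a) (ha' : a < π / 2) (hw : w ≠ 0)
    (e1 : dt w (ψ + π / 2) ≤ Real.tan a * dt w ψ)
    (e2 : -(Real.tan a) * dt w ψ ≤ dt w (ψ + π / 2)) : 0 < dt w ψ := by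
  have htan : 0 < Real.tan a := Real.tan_pos_of_pos_of_lt_pi_div_two ha ha'
  have h0 : 0 ≤ dt w ψ := by
    by_contra hneg
    push Not at hneg
    nlinarith
  rcases h0.lt_or_eq with h | h
  · exact h
  · exfalso
    rw [← h] at e1 e2
    have e3 : dt w (ψ + π / 2) = 0 := by linarith
    have e4 := norm_sq_eq w ψ
    rw [← h, e3] at e4
    have : ‖w‖ ^ 2 = 0 := by rw [e4]; ring
    exact hw (norm_eq_zero.1 ((pow_eq_zero_iff two_ne_zero).1 this))

theorem mem_closure_isoptic {S : Set Plane} (hS : IsCompact S) {P : Plane} (hP : P ∈ S)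
    {A0 : Plane} (hA0 : A0 ∈ S) (hne : A0 ≠ P) {ψ a : ℝ} (ha : 0 < a) (ha' : a < π / 2)
    (wu : ∀ A ∈ S, dt (A - P) (ψ + π / 2) ≤ Real.tan a * dt (A - P) ψ)
    (wd : ∀ A ∈ S, -(Real.tan a) * dt (A - P) ψ ≤ dt (A - P) (ψ + π / 2)) :
    P ∈ closure (isoptic S (2 * a)) := by
  have hpi := Real.pi_pos
  have htan : 0 < Real.tan a := Real.tan_pos_of_pos_of_lt_pi_div_two ha ha'
  have hat : Real.arctan (Real.tan a) = a := Real.arctan_tan (by linarith) ha'
  have hpos : ∀ A ∈ S, A ≠ P → 0 < dt (A - P) ψ := fun A hA hAP =>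
    pos_of_wedge ha ha' (sub_ne_zero.2 hAP) (wu A hA) (wd A hA)
  set f : Plane → ℝ := fun A => Real.arctan (dt (A - P) (ψ + π / 2) / dt (A - P) ψ) with hf
  set M : Set ℝ := {x | ∃ A ∈ S, A ≠ P ∧ x = f A} with hM
  have hfle : ∀ A ∈ S, A ≠ P → f A ≤ a ∧ -a ≤ f A := by
    intro A hA hAP
    have hp := hpos A hA hAP
    constructor
    · rw [← hat]
      exact Real.arctan_mono ((div_le_iff₀ hp).2 (wu A hA))
    · rw [← hat, ← Real.arctan_neg]
      exact Real.arctan_mono ((le_div_iff₀ hp).2 (wd A hA))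
  have hMne : M.Nonempty := ⟨f A0, A0, hA0, hne, rfl⟩
  have hMb : BddAbove M := ⟨a, by
    rintro x ⟨A, hA, hAP, rfl⟩
    exact (hfle A hA hAP).1⟩
  set s := sSup M with hs
  have hsa : s ≤ a := csSup_le hMne (by
    rintro x ⟨A, hA, hAP, rfl⟩
    exact (hfle A hA hAP).1)
  have hsa' : -a ≤ s := (hfle A0 hA0 hne).2.trans (le_csSup hMb ⟨A0, hA0, hne, rfl⟩)
  set η := (π - 2 * a) / 2 with hη
  have hη0 : 0 < η := by rw [hη]; linarith
  obtain ⟨x, ⟨A, hA, hAP, rfl⟩, hAs⟩ := exists_lt_of_lt_csSup hMne (show s - η / 2 < s by linarith)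
  set φ₁ := s + η / 2 with hφ₁
  have hφ₁lt : φ₁ < π / 2 := by rw [hφ₁, hη]; linarith
  have hφ₁gt : -(π / 2) < φ₁ := by rw [hφ₁]; linarith
  have hfA : f A ≤ s := le_csSup hMb ⟨A, hA, hAP, rfl⟩
  -- the path avoids `S`
  have havoid : ∀ ε : ℝ, 0 < ε → ∀ φ ∈ Icc φ₁ π, P + ε • uv (ψ + φ) ∉ S := by
    intro ε hε φ hφ hQ
    have hQP : P + ε • uv (ψ + φ) ≠ P := by
      intro h
      have h1 : ε • uv (ψ + φ) = 0 := by
        have := congrArg (fun z => z - P) h
        simpa using this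
      have h2 := congrArg norm h1
      rw [norm_smul, norm_uv, norm_zero, mul_one, Real.norm_eq_abs, abs_of_pos hε] at h2
      linarith
    have h1 := hpos _ hQ hQP
    have e1 : P + ε • uv (ψ + φ) - P = ε • uv (ψ + φ) := by abel
    have e2 : dt (P + ε • uv (ψ + φ) - P) ψ = ε * Real.cos φ := by
      rw [e1, dt_smul, dt_uv]; congr 2; ring
    have e3 : dt (P + ε • uv (ψ + φ) - P) (ψ + π / 2) = ε * Real.sin φ := by
      rw [e1, dt_smul, dt_uv]
      have : ψ + φ - (ψ + π / 2) = φ - π / 2 := by ring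
      rw [this, Real.cos_sub_pi_div_two]
    rw [e2] at h1
    have hcos : 0 < Real.cos φ := (mul_pos_iff_of_pos_left hε).1 h1
    have hφlt : φ < π / 2 := by
      by_contra hge
      push Not at hge
      have := Real.cos_nonpos_of_pi_div_two_le_of_le hge (by linarith [hφ.2])
      linarith
    have h2 : f (P + ε • uv (ψ + φ)) = φ := by
      simp only [hf]
      rw [e2, e3, mul_div_mul_left _ _ hε.ne', ← Real.tan_eq_sin_div_cos]
      exact Real.arctan_tan (by linarith [hφ.1]) hφlt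
    have h3 : φ ≤ s := by
      rw [← h2]
      exact le_csSup hMb ⟨_, hQ, hQP, rfl⟩
    have := hφ.1
    linarith
  -- near `P` the angle of sight is large in direction `φ₁`
  set v := uv (ψ + φ₁) with hv
  have hvψ : dt v ψ = Real.cos φ₁ := by rw [hv, dt_uv]; congr 1; ring
  have hvψ' : dt v (ψ + π / 2) = Real.sin φ₁ := by
    rw [hv, dt_uv]
    have : ψ + φ₁ - (ψ + π / 2) = φ₁ - π / 2 := by ring
    rw [this, Real.cos_sub_pi_div_two]
  have hcosφ : 0 < Real.cos φ₁ := Real.cos_pos_of_mem_Ioo ⟨hφ₁gt, hφ₁lt⟩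
  have hang : InnerProductGeometry.angle v (A - P) < π - 2 * a := by
    rw [angle_eq_arctan (by rw [hvψ]; exact hcosφ) (hpos A hA hAP), hvψ, hvψ',
      ← Real.tan_eq_sin_div_cos, Real.arctan_tan hφ₁gt hφ₁lt]
    have hAs' : s - η / 2 < Real.arctan (dt (A - P) (ψ + π / 2) / dt (A - P) ψ) := hAs
    have hfA' : Real.arctan (dt (A - P) (ψ + π / 2) / dt (A - P) ψ) ≤ s := hfA
    have hηη : 2 * η = π - 2 * a := by rw [hη]; ring
    rw [abs_lt]
    constructor <;> linarith
  have hang2 : 2 * a < InnerProductGeometry.angle (-v) (A - P) := by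
    rw [InnerProductGeometry.angle_neg_left]
    linarith
  have hv0 : -v ≠ 0 := by
    rw [neg_ne_zero, ← norm_ne_zero_iff, hv, norm_uv]; norm_num
  have hAP0 : A - P ≠ 0 := sub_ne_zero.2 hAP
  have hcontv : ContinuousAt (fun ε : ℝ =>
      InnerProductGeometry.angle (-v) (A - P - ε • v)) 0 := by
    have h3 : ContinuousAt (fun ε : ℝ => ((-v, A - P - ε • v) : Plane × Plane)) 0 := by fun_prop
    have h4 : A - P - (0 : ℝ) • v ≠ 0 := by rw [zero_smul, sub_zero]; exact hAP0
    exact ContinuousAt.comp (g := fun y : Plane × Plane => InnerProductGeometry.angle y.1 y.2)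
      (f := fun ε : ℝ => ((-v, A - P - ε • v) : Plane × Plane)) (x := (0 : ℝ))
      (InnerProductGeometry.continuousAt_angle (x := (-v, A - P - (0 : ℝ) • v)) hv0 h4) h3
  have hev : ∀ᶠ ε in 𝓝 (0 : ℝ), 2 * a < InnerProductGeometry.angle (-v) (A - P - ε • v) := by
    have h5 : Tendsto (fun ε : ℝ => InnerProductGeometry.angle (-v) (A - P - ε • v)) (𝓝 0)
        (𝓝 (InnerProductGeometry.angle (-v) (A - P))) := by
      have := hcontv.tendsto
      rwa [zero_smul, sub_zero] at this
    exact h5.eventually_const_lt hang2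
  obtain ⟨δ, hδ, hδε⟩ := Metric.eventually_nhds_iff.1 hev
  rw [Metric.mem_closure_iff]
  intro ζ hζ
  set ε := min (δ / 2) (ζ / 2) with hε
  have hε0 : 0 < ε := lt_min (by linarith) (by linarith)
  have hεδ : ε < δ := lt_of_le_of_lt (min_le_left _ _) (by linarith)
  have hεζ : ε < ζ := lt_of_le_of_lt (min_le_right _ _) (by linarith)
  have hbig : 2 * a < angleOfSight S (P + ε • v) := by
    have h1 := hδε (y := ε) (by rw [Real.dist_eq, sub_zero, abs_of_pos hε0]; exact hεδ)
    refine h1.trans_le ?_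
    have h2 := le_angleOfSight (P := P + ε • v) hP hA
    rw [angle_def] at h2
    have e1 : P - (P + ε • v) = ε • (-v) := by rw [smul_neg]; abel
    have e2 : A - (P + ε • v) = A - P - ε • v := by abel
    rw [e1, e2, InnerProductGeometry.angle_smul_left_of_pos _ _ hε0] at h2
    exact h2
  have hsmall : angleOfSight S (P + ε • uv (ψ + π)) < 2 * a := by
    have e0 : uv (ψ + π) = - uv ψ := by
      unfold uv
      rw [Real.cos_add_pi, Real.sin_add_pi]
      ext i
      fin_cases i <;> simp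
    have hX : ∀ B, dt (B - (P + ε • uv (ψ + π))) ψ = dt (B - P) ψ + ε := by
      intro B
      have : B - (P + ε • uv (ψ + π)) = (B - P) + ε • uv ψ := by rw [e0, smul_neg]; abel
      rw [this, dt_add, dt_smul, dt_uv, sub_self, Real.cos_zero, mul_one]
    have hY : ∀ B, dt (B - (P + ε • uv (ψ + π))) (ψ + π / 2) = dt (B - P) (ψ + π / 2) := by
      intro B
      have : B - (P + ε • uv (ψ + π)) = (B - P) + ε • uv ψ := by rw [e0, smul_neg]; abel
      rw [this, dt_add, dt_smul, dt_uv]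
      have : ψ - (ψ + π / 2) = -(π / 2) := by ring
      rw [this, Real.cos_neg, Real.cos_pi_div_two]; ring
    apply angleOfSight_lt_of_wedge hS ha ha' (ψ := ψ)
    · intro B hB
      rw [hX, hY]
      have := wu B hB
      nlinarith
    · intro B hB
      rw [hX, hY]
      have := wd B hB
      nlinarith
  have hφ₁π : φ₁ ≤ π := by linarith
  have hpath : ContinuousOn (fun φ : ℝ => angleOfSight S (P + ε • uv (ψ + φ))) (Icc φ₁ π) := by
    have h1 : Continuous (fun φ : ℝ => P + ε • uv (ψ + φ)) := by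
      have : Continuous (fun φ : ℝ => uv (ψ + φ)) := by
        unfold uv
        apply (PiLp.continuous_toLp 2 _).comp
        apply continuous_pi
        intro i
        fin_cases i
        · simp; fun_prop
        · simp; fun_prop
      fun_prop
    exact (angleOfSight_continuousOn hS).comp h1.continuousOn (fun φ hφ => havoid ε hε0 φ hφ)
  obtain ⟨φ, hφ, hφval⟩ := intermediate_value_Icc' hφ₁π hpath
    (show 2 * a ∈ Icc (angleOfSight S (P + ε • uv (ψ + π))) (angleOfSight S (P + ε • v)) from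
      ⟨hsmall.le, hbig.le⟩)
  refine ⟨P + ε • uv (ψ + φ), ⟨havoid ε hε0 φ hφ, hφval⟩, ?_⟩
  rw [dist_eq_norm]
  have : P - (P + ε • uv (ψ + φ)) = -(ε • uv (ψ + φ)) := by abel
  rw [this, norm_neg, norm_smul, norm_uv, mul_one, Real.norm_eq_abs, abs_of_pos hε0]
  exact hεζ

end Pool.Agent.Isoptic
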