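import Pool.Agent.Isoptic.Closure

set_option autoImplicit false

open Real Set Metric EuclideanGeometry MeasureTheory Filter Topology

namespace Pool.Agent.Isoptic

theorem two_points_of_closure {S : Set Plane} {α R : ℝ} {c : Plane} (hS : IsCompact S)
    (hα : α ∈ Ioo 0 π) (hR : 0 < R) (hcl : closure (isoptic S α) = sphere c R) :
    ∃ A ∈ S, ∃ B ∈ S, A ≠ B := by
  have h1 : c + R • uv 0 ∈ sphere c R := by
    rw [Metric.mem_sphere, dist_eq_norm, add_sub_cancel_left, norm_smul, norm_uv, mul_one,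
      Real.norm_eq_abs, abs_of_pos hR]
  rw [← hcl] at h1
  obtain ⟨Q, hQ⟩ := closure_nonempty_iff.1 ⟨_, h1⟩
  have hne : S.Nonempty := by
    rw [Set.nonempty_iff_ne_empty]
    rintro rfl
    have h2 : angleOfSight (∅ : Set Plane) Q = 0 := by
      unfold angleOfSight
      simp
    have h3 := hQ.2
    rw [h2] at h3
    exact hα.1.ne h3
  obtain ⟨A, hA, B, hB, hAB⟩ := exists_angleOfSight hS hne hQ.1
  refine ⟨A, hA, B, hB, ?_⟩
  rintro rfl
  rw [hQ.2, angle_def] at hAB
  have hAQ : A - Q ≠ 0 := fun h => hQ.1 ((sub_eq_zero.1 h) ▸ hA)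
  rw [InnerProductGeometry.angle_self hAQ] at hAB
  exact hα.1.ne hAB

/-- the point common to two support lines lies on the circle -/
theorem vertex_point {S : Set Plane} {α R : ℝ} {c : Plane} (hS : IsCompact S)
    (hα : α ∈ Ioo 0 π) (hR : 0 < R) (hcl : closure (isoptic S α) = sphere c R) (θ : ℝ) :
    ∃ P : Plane, ‖P - c‖ = R ∧ dt P θ = supp S θ ∧ dt P (θ + (π - α)) = supp S (θ + (π - α)) ∧
      (P ∈ S ∨ dt P (θ + (π - α) + (π - α)) < supp S (θ + (π - α) + (π - α))) := by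
  obtain ⟨A0, hA0, B0, hB0, hAB0⟩ := two_points_of_closure hS hα hR hcl
  have hne : S.Nonempty := ⟨A0, hA0⟩
  set β := π - α with hβ
  set a := α / 2 with ha
  have hα1 := hα.1
  have hα2 := hα.2
  have ha0 : 0 < a := by rw [ha]; linarith
  have ha1 : a < π / 2 := by rw [ha]; linarith
  have hβa : β = π - 2 * a := by rw [hβ, ha]; ring
  have hβ0 : 0 < β := by rw [hβ]; linarith
  have hβ1 : β < π := by rw [hβ]; linarith
  have hsin : 0 < Real.sin β := Real.sin_pos_of_pos_of_lt_pi hβ0 hβ1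
  have hcosa : 0 < Real.cos a := Real.cos_pos_of_mem_Ioo ⟨by linarith, ha1⟩
  set g0 := supp S θ - dt c θ with hg0
  set g1 := supp S (θ + β) - dt c (θ + β) with hg1
  set q := (g1 - g0 * Real.cos β) / Real.sin β with hq
  set P := c + g0 • uv θ + q • uv (θ + π / 2) with hP
  have hPc : P - c = g0 • uv θ + q • uv (θ + π / 2) := by rw [hP]; abel
  have dP0 : dt (P - c) θ = g0 := by
    rw [hPc, dt_add, dt_smul, dt_smul, dt_uv, dt_uv, sub_self, Real.cos_zero]
    have : θ + π / 2 - θ = π / 2 := by ring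
    rw [this, Real.cos_pi_div_two]; ring
  have dP1 : dt (P - c) (θ + π / 2) = q := by
    rw [hPc, dt_add, dt_smul, dt_smul, dt_uv, dt_uv, sub_self, Real.cos_zero]
    have : θ - (θ + π / 2) = -(π / 2) := by ring
    rw [this, Real.cos_neg, Real.cos_pi_div_two]; ring
  have dPβ : dt (P - c) (θ + β) = g1 := by
    rw [dt_rot, dP0, dP1, hq]
    field_simp
    ring
  have dPθ : dt P θ = supp S θ := by
    rw [dt_sub] at dP0; linarith
  have dPθβ : dt P (θ + β) = supp S (θ + β) := by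
    rw [dt_sub] at dPβ; linarith
  clear_value q
  -- wedge inequalities
  set ψ := θ - π / 2 - a with hψ
  have wl : ∀ w, dt w θ = Real.cos a * dt w (ψ + π / 2) - Real.sin a * dt w ψ :=
    fun w => wedge_left w θ a
  have wr : ∀ w, dt w (θ + β) = -(Real.cos a * dt w (ψ + π / 2)) - Real.sin a * dt w ψ := by
    intro w; rw [hβa]; exact wedge_right w θ a
  have hle0 : ∀ A ∈ S, dt (A - P) θ ≤ 0 := by
    intro A hA
    rw [dt_sub, dPθ]; linarith [le_supp hS hA θ]
  have hle1 : ∀ A ∈ S, dt (A - P) (θ + β) ≤ 0 := by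
    intro A hA
    rw [dt_sub, dPθβ]; linarith [le_supp hS hA (θ + β)]
  have wu : ∀ A ∈ S, dt (A - P) (ψ + π / 2) ≤ Real.tan a * dt (A - P) ψ := by
    intro A hA
    have := hle0 A hA
    rw [wl] at this
    rw [Real.tan_eq_sin_div_cos, div_mul_eq_mul_div, le_div_iff₀ hcosa]
    linarith
  have wd : ∀ A ∈ S, -(Real.tan a) * dt (A - P) ψ ≤ dt (A - P) (ψ + π / 2) := by
    intro A hA
    have := hle1 A hA
    rw [wr] at this
    rw [Real.tan_eq_sin_div_cos, neg_mul, neg_le, div_mul_eq_mul_div, le_div_iff₀ hcosa]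
    linarith
  have h2a : 2 * a = α := by rw [ha]; ring
  by_cases hPS : P ∈ S
  · -- a corner
    have hPC : P ∈ closure (isoptic S α) := by
      rw [← h2a]
      by_cases hA : A0 = P
      · have hB : B0 ≠ P := fun h => hAB0 (hA.trans h.symm)
        exact mem_closure_isoptic hS hPS hB0 hB ha0 ha1 wu wd
      · exact mem_closure_isoptic hS hPS hA0 hA ha0 ha1 wu wd
    rw [hcl, Metric.mem_sphere, dist_eq_norm] at hPC
    exact ⟨P, hPC, dPθ, dPθβ, Or.inl hPS⟩
  · obtain ⟨A, hA, hAs⟩ := exists_supp hS hne θ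
    obtain ⟨B, hB, hBs⟩ := exists_supp hS hne (θ + β)
    have hangle : angleOfSight S P = 2 * a := by
      apply angleOfSight_of_wedge ha0 ha1 hPS wu wd hA hB
      · have h1 : dt (A - P) θ = 0 := by rw [dt_sub, dPθ, hAs, sub_self]
        rw [wl] at h1
        rw [Real.tan_eq_sin_div_cos, div_mul_eq_mul_div, eq_div_iff hcosa.ne']
        linarith
      · have h1 : dt (B - P) (θ + β) = 0 := by rw [dt_sub, dPθβ, hBs, sub_self]
        rw [wr] at h1
        rw [Real.tan_eq_sin_div_cos, neg_mul, div_mul_eq_mul_div, ← neg_div, eq_div_iff hcosa.ne']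
        linarith
    have hPC : ‖P - c‖ = R := by
      have : P ∈ closure (isoptic S α) := subset_closure ⟨hPS, by rw [hangle, h2a]⟩
      rw [hcl, Metric.mem_sphere, dist_eq_norm] at this
      exact this
    refine ⟨P, hPC, dPθ, dPθβ, Or.inr ?_⟩
    set w := B - P with hw
    have w0 : dt w (θ + β) = 0 := by rw [hw, dt_sub, dPθβ, hBs, sub_self]
    have wne : w ≠ 0 := by
      intro h
      rw [hw, sub_eq_zero] at h
      rw [h] at hB
      exact hPS hB
    have w1 := norm_sq_eq w (θ + β)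
    rw [w0] at w1
    set s := dt w (θ + β + π / 2) with hs
    have s_ne : s ≠ 0 := by
      intro h
      rw [h] at w1
      have : ‖w‖ = 0 := by
        have h' : ‖w‖ ^ 2 = 0 := by rw [w1]; ring
        exact (pow_eq_zero_iff two_ne_zero).1 h'
      exact wne (norm_eq_zero.1 this)
    have w2 := dt_rot w (θ + β) (-β)
    rw [w0, Real.cos_neg, Real.sin_neg, ← hs] at w2
    have e1 : θ + β + -β = θ := by ring
    rw [e1] at w2
    have w3 := hle0 B hB
    rw [← hw, w2] at w3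
    have s_pos : 0 < s := by
      rcases lt_trichotomy s 0 with h | h | h
      · nlinarith
      · exact absurd h s_ne
      · exact h
    have w4 := dt_rot w (θ + β) β
    rw [w0, ← hs] at w4
    have w5 : 0 < dt w (θ + β + β) := by
      rw [w4]
      have := mul_pos s_pos hsin
      linarith
    have := le_supp hS hB (θ + β + β)
    rw [hw, dt_sub] at w5
    linarith

/-! ### Normal cones -/

/-- the directions in which `w` is a support point -/
def nor (S : Set Plane) (w : Plane) : Set ℝ := {θ | dt w θ = supp S θ}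

theorem nor_closed {S : Set Plane} (hS : IsCompact S) (w : Plane) : IsClosed (nor S w) :=
  isClosed_eq (dt_cont_right w) (supp_continuous hS)

theorem dt_three (y : Plane) (θ₁ θ₂ θ : ℝ) : Real.sin (θ₂ - θ₁) * dt y θ =
    Real.sin (θ₂ - θ) * dt y θ₁ + Real.sin (θ - θ₁) * dt y θ₂ := by
  unfold dt
  rw [Real.sin_sub, Real.sin_sub, Real.sin_sub]
  ring

theorem nor_convex {S : Set Plane} (hS : IsCompact S) (hne : S.Nonempty) {w : Plane} (hw : w ∈ S)
    {θ₁ θ₂ θ : ℝ} (h12 : θ₂ - θ₁ < π) (h1 : θ₁ ≤ θ) (h2 : θ ≤ θ₂) (k1 : θ₁ ∈ nor S w)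
    (k2 : θ₂ ∈ nor S w) : θ ∈ nor S w := by
  rcases (h1.trans h2).lt_or_eq with hlt | heq
  · obtain ⟨x, hx, hxs⟩ := exists_supp hS hne θ
    have e1 : dt (x - w) θ₁ ≤ 0 := by
      have := le_supp hS hx θ₁
      rw [dt_sub]
      have k1' : dt w θ₁ = supp S θ₁ := k1
      linarith
    have e2 : dt (x - w) θ₂ ≤ 0 := by
      have := le_supp hS hx θ₂
      rw [dt_sub]
      have k2' : dt w θ₂ = supp S θ₂ := k2
      linarith
    have e3 := dt_three (x - w) θ₁ θ₂ θ
    have s1 : 0 < Real.sin (θ₂ - θ₁) := Real.sin_pos_of_pos_of_lt_pi (by linarith) h12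
    have s2 : 0 ≤ Real.sin (θ₂ - θ) := Real.sin_nonneg_of_nonneg_of_le_pi (by linarith) (by linarith)
    have s3 : 0 ≤ Real.sin (θ - θ₁) := Real.sin_nonneg_of_nonneg_of_le_pi (by linarith) (by linarith)
    have e4 : Real.sin (θ₂ - θ₁) * dt (x - w) θ ≤ 0 := by
      rw [e3]
      have := mul_nonpos_of_nonneg_of_nonpos s2 e1
      have := mul_nonpos_of_nonneg_of_nonpos s3 e2
      linarith
    have e5 : dt (x - w) θ ≤ 0 := by
      by_contra h
      push Not at h
      have := mul_pos s1 h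
      linarith
    rw [dt_sub] at e5
    have e6 := le_supp hS hw θ
    exact le_antisymm e6 (by linarith)
  · have : θ = θ₁ := by linarith
    rw [this]; exact k1

theorem eq_of_two {y : Plane} {θ β : ℝ} (hβ0 : 0 < β) (hβ1 : β < π) (h1 : dt y θ = 0)
    (h2 : dt y (θ + β) = 0) : y = 0 := by
  have hsin : 0 < Real.sin β := Real.sin_pos_of_pos_of_lt_pi hβ0 hβ1
  have h3 := dt_rot y θ β
  rw [h1, h2, zero_mul, zero_add] at h3
  have h4 : dt y (θ + π / 2) = 0 := by
    rcases mul_eq_zero.1 h3.symm with h | h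
    · exact h
    · exact absurd h hsin.ne'
  have h5 := norm_sq_eq y θ
  rw [h1, h4] at h5
  have h6 : ‖y‖ ^ 2 = 0 := by rw [h5]; ring
  exact norm_eq_zero.1 ((pow_eq_zero_iff two_ne_zero).1 h6)

/-- A normal cone of opening more than `π` occurs only for a point. -/
theorem nor_short {S : Set Plane} (hS : IsCompact S) {w A B : Plane} (hA : A ∈ S) (hB : B ∈ S)
    (hAB : A ≠ B) {p q : ℝ} (h : ∀ y ∈ Icc p q, y ∈ nor S w) : q - p ≤ π := by
  by_contra hlt
  push Not at hlt
  have hpi := Real.pi_pos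
  have key : ∀ x ∈ S, x = w := by
    intro x hx
    set δ := min (q - p - π) (π / 2) with hδ
    have hδ0 : 0 < δ := lt_min (by linarith) (by linarith)
    have hδ1 : δ ≤ q - p - π := min_le_left _ _
    have hδ2 : δ ≤ π / 2 := min_le_right _ _
    have hz : ∀ y ∈ Icc p (p + δ), dt (x - w) y = 0 := by
      intro y hy
      have e1 : dt w y = supp S y := h y ⟨hy.1, by linarith [hy.2]⟩
      have e2 : dt w (y + π) = supp S (y + π) := h (y + π) ⟨by linarith [hy.1], by linarith [hy.2]⟩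
      have e3 := le_supp hS hx y
      have e4 := le_supp hS hx (y + π)
      rw [dt_add_pi] at e2 e4
      rw [dt_sub]
      linarith
    have h1 := hz p ⟨le_rfl, by linarith⟩
    have h2 := hz (p + δ) ⟨by linarith, le_rfl⟩
    exact sub_eq_zero.1 (eq_of_two hδ0 (by linarith) h1 h2)
  exact hAB ((key A hA).trans (key B hB).symm)

theorem star_identity (y : Plane) (θ β : ℝ) :
    dt y θ ^ 2 + dt y (θ + β) ^ 2 - 2 * Real.cos β * dt y θ * dt y (θ + β) =
      ‖y‖ ^ 2 * Real.sin β ^ 2 := by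
  rw [norm_sq_eq y θ, dt_rot y θ β]
  have hs := Real.sin_sq_add_cos_sq β
  linear_combination (-(dt y θ) ^ 2) * hs

theorem dt_diff_identity (y : Plane) (θ β : ℝ) :
    dt y (θ + 2 * β) - dt y θ = 2 * Real.sin β * dt y (θ + β + π / 2) := by
  have h1 := dt_rot y (θ + β) β
  have h2 := dt_rot y (θ + β) (-β)
  rw [Real.cos_neg, Real.sin_neg] at h2
  have e1 : θ + β + β = θ + 2 * β := by ring
  have e2 : θ + β + -β = θ := by ring
  rw [e1] at h1
  rw [e2] at h2
  rw [h1, h2]
  ring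

section periodic

variable {S : Set Plane} {β R : ℝ} {c : Plane}

theorem periodic_of_vertices (hS : IsCompact S) {A0 B0 : Plane} (hA0 : A0 ∈ S) (hB0 : B0 ∈ S)
    (hAB0 : A0 ≠ B0) (hβ0 : 0 < β) (hβ1 : β < π) (hR : 0 < R)
    (vp : ∀ θ, ∃ P : Plane, ‖P - c‖ = R ∧ dt P θ = supp S θ ∧ dt P (θ + β) = supp S (θ + β) ∧
      (P ∈ S ∨ dt P (θ + β + β) < supp S (θ + β + β))) :
    (∀ θ, (supp S θ - dt c θ) ^ 2 + (supp S (θ + β) - dt c (θ + β)) ^ 2
      - 2 * Real.cos β * (supp S θ - dt c θ) * (supp S (θ + β) - dt c (θ + β))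
        = R ^ 2 * Real.sin β ^ 2) ∧
    ∀ θ, supp S (θ + 2 * β) - dt c (θ + 2 * β) = supp S θ - dt c θ := by
  have hne : S.Nonempty := ⟨A0, hA0⟩
  have hsin : 0 < Real.sin β := Real.sin_pos_of_pos_of_lt_pi hβ0 hβ1
  have star : ∀ θ, (supp S θ - dt c θ) ^ 2 + (supp S (θ + β) - dt c (θ + β)) ^ 2
      - 2 * Real.cos β * (supp S θ - dt c θ) * (supp S (θ + β) - dt c (θ + β))
        = R ^ 2 * Real.sin β ^ 2 := by
    intro θ
    obtain ⟨P, h1, h2, h3, -⟩ := vp θ
    have h4 := star_identity (P - c) θ β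
    rw [dt_sub, dt_sub, h1, h2, h3] at h4
    exact h4
  refine ⟨star, ?_⟩
  set g : ℝ → ℝ := fun θ => supp S θ - dt c θ with hg
  have hgc : Continuous g := (supp_continuous hS).sub (dt_cont_right c)
  set F : Set ℝ := {θ | g (θ + 2 * β) = g θ} with hF
  have hFc : IsClosed F := isClosed_eq (hgc.comp (by fun_prop)) hgc
  -- a vertex at each bad direction
  have bad : ∀ θ, θ ∉ F → ∃ w ∈ S, ‖w - c‖ = R ∧ ∀ y ∈ Icc θ (θ + 2 * β), y ∈ nor S w := by
    intro θ hθ
    have s1 := star θ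
    have s2 := star (θ + β)
    obtain ⟨P, h1, h2, h3, h4⟩ := vp θ
    have e : θ + 2 * β = θ + β + β := by ring
    have hθ' : g (θ + β + β) ≠ g θ := by
      intro h
      apply hθ
      show g (θ + 2 * β) = g θ
      rw [e]; exact h
    have h5 : (g (θ + β + β) - g θ) *
        (g (θ + β + β) + g θ - 2 * Real.cos β * g (θ + β)) = 0 := by
      simp only [hg]
      linear_combination s2 - s1
    have h6 : g (θ + β + β) = 2 * Real.cos β * g (θ + β) - g θ := by
      rcases mul_eq_zero.1 h5 with h | h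
      · exact absurd (sub_eq_zero.1 h) hθ'
      · linarith
    have h7 := dt_sum_identity (P - c) (θ + β) β
    have e2 : θ + β - β = θ := by ring
    rw [e2, dt_sub P c θ, dt_sub P c (θ + β), h2, h3] at h7
    have h8 : dt P (θ + β + β) = supp S (θ + β + β) := by
      rw [dt_sub] at h7
      simp only [hg] at h6
      linarith
    have hPS : P ∈ S := by
      rcases h4 with h | h
      · exact h
      · exfalso; linarith
    refine ⟨P, hPS, h1, ?_⟩
    intro y hy
    rcases le_total y (θ + β) with hle | hle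
    · exact nor_convex hS hne hPS (by linarith) hy.1 hle h2 h3
    · exact nor_convex hS hne hPS (by linarith) hle (by rw [← e]; exact hy.2) h3 h8
  intro θ₀
  by_contra hbad
  have hθ₀ : θ₀ ∉ F := hbad
  obtain ⟨w₀, hw₀, hw₀R, hN⟩ := bad θ₀ hθ₀
  -- left end
  set I : Set ℝ := {x | x ≤ θ₀ ∧ ∀ y ∈ Icc x (θ₀ + 2 * β), y ∈ nor S w₀} with hI
  have hI0 : θ₀ ∈ I := ⟨le_rfl, hN⟩
  have hIb : BddBelow I := by
    refine ⟨θ₀ - π, ?_⟩
    rintro x ⟨hx, hx2⟩
    have := nor_short hS hA0 hB0 hAB0 hx2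
    linarith
  set p := sInf I with hp
  have hpθ : p ≤ θ₀ := csInf_le hIb hI0
  have hpI : ∀ y ∈ Icc p (θ₀ + 2 * β), y ∈ nor S w₀ := by
    have h1 : ∀ y ∈ Ioc p (θ₀ + 2 * β), y ∈ nor S w₀ := by
      intro y hy
      obtain ⟨x, hx, hxy⟩ := exists_lt_of_csInf_lt ⟨θ₀, hI0⟩ hy.1
      exact hx.2 y ⟨hxy.le, hy.2⟩
    have h2 : closure (Ioc p (θ₀ + 2 * β)) ⊆ nor S w₀ := closure_minimal h1 (nor_closed hS w₀)
    rw [closure_Ioc (by linarith : p ≠ θ₀ + 2 * β)] at h2
    exact h2
  have hpF : p ∈ F := by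
    by_contra hpF
    obtain ⟨δ, hδ, hδF⟩ := Metric.isOpen_iff.1 hFc.isOpen_compl p hpF
    set s := min (δ / 2) β with hs
    have hs0 : 0 < s := lt_min (by linarith) hβ0
    have hs1 : s ≤ δ / 2 := min_le_left _ _
    have hs2 : s ≤ β := min_le_right _ _
    have hmem : p - s ∉ F := by
      apply hδF
      rw [Metric.mem_ball, Real.dist_eq]
      have : p - s - p = -s := by ring
      rw [this, abs_neg, abs_of_pos hs0]; linarith
    obtain ⟨w, hw, -, hNw⟩ := bad _ hmem
    have e1 : dt w p = supp S p := hNw p ⟨by linarith, by linarith⟩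
    have e2 : dt w (p + β) = supp S (p + β) := hNw (p + β) ⟨by linarith, by linarith⟩
    have e3 : dt w₀ p = supp S p := hpI p ⟨le_rfl, by linarith⟩
    have e4 : dt w₀ (p + β) = supp S (p + β) := hpI (p + β) ⟨by linarith, by linarith⟩
    have hww : w - w₀ = 0 := by
      apply eq_of_two hβ0 hβ1 (θ := p)
      · rw [dt_sub, e1, e3, sub_self]
      · rw [dt_sub, e2, e4, sub_self]
    rw [sub_eq_zero] at hww
    subst hww
    have hin : p - s ∈ I := by
      refine ⟨by linarith, ?_⟩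
      intro y hy
      rcases le_total y p with hle | hle
      · exact hNw y ⟨hy.1, by linarith⟩
      · exact hpI y ⟨hle, hy.2⟩
    have := csInf_le hIb hin
    linarith
  -- right end
  set J : Set ℝ := {x | θ₀ + 2 * β ≤ x ∧ ∀ y ∈ Icc p x, y ∈ nor S w₀} with hJ
  have hJ0 : θ₀ + 2 * β ∈ J := ⟨le_rfl, hpI⟩
  have hJb : BddAbove J := by
    refine ⟨p + π, ?_⟩
    rintro x ⟨hx, hx2⟩
    have := nor_short hS hA0 hB0 hAB0 hx2
    linarith
  set q := sSup J with hq
  have hqθ : θ₀ + 2 * β ≤ q := le_csSup hJb hJ0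
  have hqJ : ∀ y ∈ Icc p q, y ∈ nor S w₀ := by
    have h1 : ∀ y ∈ Ico p q, y ∈ nor S w₀ := by
      intro y hy
      obtain ⟨x, hx, hxy⟩ := exists_lt_of_lt_csSup ⟨_, hJ0⟩ hy.2
      exact hx.2 y ⟨hy.1, hxy.le⟩
    have h2 : closure (Ico p q) ⊆ nor S w₀ := closure_minimal h1 (nor_closed hS w₀)
    rw [closure_Ico (by linarith : p ≠ q)] at h2
    exact h2
  have hqp : q - p ≤ π := nor_short hS hA0 hB0 hAB0 hqJ
  have hqF : q - 2 * β ∈ F := by
    by_contra hqF
    obtain ⟨δ, hδ, hδF⟩ := Metric.isOpen_iff.1 hFc.isOpen_compl _ hqF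
    set s := min (δ / 2) β with hs
    have hs0 : 0 < s := lt_min (by linarith) hβ0
    have hs1 : s ≤ δ / 2 := min_le_left _ _
    have hs2 : s ≤ β := min_le_right _ _
    have hmem : q - 2 * β + s ∉ F := by
      apply hδF
      rw [Metric.mem_ball, Real.dist_eq]
      have : q - 2 * β + s - (q - 2 * β) = s := by ring
      rw [this, abs_of_pos hs0]; linarith
    obtain ⟨w, hw, -, hNw⟩ := bad _ hmem
    have e1 : dt w (q - β) = supp S (q - β) := hNw (q - β) ⟨by linarith, by linarith⟩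
    have e2 : dt w (q - β + β) = supp S (q - β + β) := hNw (q - β + β) ⟨by linarith, by linarith⟩
    have e3 : dt w₀ (q - β) = supp S (q - β) := hqJ (q - β) ⟨by linarith, by linarith⟩
    have e4 : dt w₀ (q - β + β) = supp S (q - β + β) :=
      hqJ (q - β + β) ⟨by linarith, by linarith⟩
    have hww : w - w₀ = 0 := by
      apply eq_of_two hβ0 hβ1 (θ := q - β)
      · rw [dt_sub, e1, e3, sub_self]
      · rw [dt_sub, e2, e4, sub_self]
    rw [sub_eq_zero] at hww
    subst hww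
    have hin : q + s ∈ J := by
      refine ⟨by linarith, ?_⟩
      intro y hy
      rcases le_total y q with hle | hle
      · exact hqJ y ⟨hy.1, hle⟩
      · exact hNw y ⟨by linarith, by linarith [hy.2]⟩
    have := le_csSup hJb hin
    linarith
  -- conclusion
  set y := w₀ - c with hy
  have z1 : dt y (p + β + π / 2) = 0 := by
    have h1 : g (p + 2 * β) = g p := hpF
    have e1 : dt w₀ p = supp S p := hqJ p ⟨le_rfl, by linarith⟩
    have e2 : dt w₀ (p + 2 * β) = supp S (p + 2 * β) := hqJ _ ⟨by linarith, by linarith⟩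
    have h2 := dt_diff_identity y p β
    simp only [hg] at h1
    rw [hy, dt_sub, dt_sub, e1, e2, h1, sub_self] at h2
    rcases mul_eq_zero.1 h2.symm with h | h
    · exfalso; linarith
    · exact h
  have z2 : dt y (q - 2 * β + β + π / 2) = 0 := by
    have h1 : g (q - 2 * β + 2 * β) = g (q - 2 * β) := hqF
    have e1 : dt w₀ (q - 2 * β) = supp S (q - 2 * β) := hqJ _ ⟨by linarith, by linarith⟩
    have e2 : dt w₀ (q - 2 * β + 2 * β) = supp S (q - 2 * β + 2 * β) :=
      hqJ _ ⟨by linarith, by linarith⟩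
    have h2 := dt_diff_identity y (q - 2 * β) β
    simp only [hg] at h1
    rw [hy, dt_sub, dt_sub, e1, e2, h1, sub_self] at h2
    rcases mul_eq_zero.1 h2.symm with h | h
    · exfalso; linarith
    · exact h
  set D := q - 2 * β - p with hD
  have hD0 : 0 ≤ D := by rw [hD]; linarith
  have hD1 : D < π := by rw [hD]; linarith
  rcases hD0.lt_or_eq with hD0 | hD0
  · have e : q - 2 * β + β + π / 2 = p + β + π / 2 + D := by rw [hD]; ring
    rw [e] at z2
    have hy0 := eq_of_two hD0 hD1 z1 z2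
    rw [hy0, norm_zero] at hw₀R
    exact hR.ne hw₀R
  · have : θ₀ = p := by rw [hD] at hD0; linarith
    exact hθ₀ (this ▸ hpF)

end periodic

/-- If the closures of two isoptics are circles, the body is a disc. -/
theorem disc_of_two_closure {S : Set Plane} (hS : IsCompact S) (hconv : Convex ℝ S)
    {α₁ α₂ R₁ R₂ : ℝ} {c₁ c₂ : Plane} (hα₁ : α₁ ∈ Ioo 0 π) (hα₂ : α₂ ∈ Ioo 0 π)
    (hR₁ : 0 < R₁) (hR₂ : 0 < R₂) (hc₁ : closure (isoptic S α₁) = sphere c₁ R₁)
    (hc₂ : closure (isoptic S α₂) = sphere c₂ R₂) (hne : α₁ ≠ α₂) :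
    ∃ (c : Plane) (ρ : ℝ), 0 < ρ ∧ S = closedBall c ρ := by
  obtain ⟨A0, hA0, B0, hB0, hAB0⟩ := two_points_of_closure hS hα₁ hR₁ hc₁
  have hSne : S.Nonempty := ⟨A0, hA0⟩
  have b10 : 0 < π - α₁ := by linarith [hα₁.2]
  have b11 : π - α₁ < π := by linarith [hα₁.1]
  have b20 : 0 < π - α₂ := by linarith [hα₂.2]
  have b21 : π - α₂ < π := by linarith [hα₂.1]
  obtain ⟨q₁, p₁⟩ := periodic_of_vertices (c := c₁) hS hA0 hB0 hAB0 b10 b11 hR₁
    (vertex_point hS hα₁ hR₁ hc₁)
  obtain ⟨q₂, p₂⟩ := periodic_of_vertices (c := c₂) hS hA0 hB0 hAB0 b20 b21 hR₂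
    (vertex_point hS hα₂ hR₂ hc₂)
  have hcc := centre_eq hS b10 b11 b20 b21 p₁ p₂
  subst hcc
  obtain ⟨ρ, hρ⟩ := const_of_two (g := fun θ => supp S θ - dt c₁ θ)
    ((supp_continuous hS).sub (dt_cont_right c₁)) b10 b11 b20 b21
    (fun h => hne (by linarith)) p₁ p₂ q₁ q₂
  have hSb := eq_closedBall hS hconv hSne hρ
  refine ⟨c₁, ρ, ?_, hSb⟩
  have hρ0 : 0 ≤ ρ := by
    by_contra hneg
    push Not at hneg
    rw [hSb, closedBall_eq_empty.2 hneg] at hSne
    exact Set.not_nonempty_empty hSne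
  rcases hρ0.lt_or_eq with h | h
  · exact h
  · exfalso
    rw [hSb, ← h, closedBall_zero] at hA0 hB0
    exact hAB0 ((mem_singleton_iff.1 hA0).trans (mem_singleton_iff.1 hB0).symm)

end Pool.Agent.Isoptic
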