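import Mathlib

set_option autoImplicit false

open Real Set Metric EuclideanGeometry

namespace Pool.Agent.Isoptic

/-- The Euclidean plane `ℝ²`. -/
abbrev Plane : Type := EuclideanSpace ℝ (Fin 2)

/-- The angle of sight of `S` at `P`: the opening angle of the cone formed by the rays from `P`
through the points of `S`, that is, the supremum of the angles `∠ A P B` over `A, B ∈ S`. -/
noncomputable def angleOfSight (S : Set Plane) (P : Plane) : ℝ :=
  sSup {x : ℝ | ∃ A ∈ S, ∃ B ∈ S, x = ∠ A P B}

/-- The isoptic `S_α`: the points `P ∉ S` at which the angle of sight of `S` is `α`. -/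
def isoptic (S : Set Plane) (α : ℝ) : Set Plane := {P | P ∉ S ∧ angleOfSight S P = α}

/-- The set of the `α ∈ (0, π)` for which the isoptic `S_α` is a circle. -/
def circularIsoptics (S : Set Plane) : Set ℝ :=
  {α | α ∈ Ioo 0 π ∧ ∃ (c : Plane) (r : ℝ), 0 < r ∧ isoptic S α = sphere c r}

/-- The set of the `α ∈ (0, π)` for which the closure of the isoptic `S_α` is a circle. (Corners
of `S` may then lie on the circle.) -/
def closureCircularIsoptics (S : Set Plane) : Set ℝ :=
  {α | α ∈ Ioo 0 π ∧ ∃ (c : Plane) (r : ℝ), 0 < r ∧ closure (isoptic S α) = sphere c r}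

end Pool.Agent.Isoptic
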