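import Pool.Agent.Isoptic.Support

set_option autoImplicit false

open Real Set Metric EuclideanGeometry MeasureTheory

namespace Pool.Agent.Isoptic

/-! ### Periodic functions -/

theorem steiner {f : ℝ → ℝ} (hf : Continuous f) (h1 : ∀ θ, f (θ + 2 * π) = f θ) {β : ℝ}
    (hβ0 : 0 < β) (hβ1 : β < π) (h2 : ∀ θ, f (θ + 2 * β) = f θ) :
    (∫ θ in (0 : ℝ)..(2 * π), f θ * Real.cos θ) = 0 ∧
      (∫ θ in (0 : ℝ)..(2 * π), f θ * Real.sin θ) = 0 := by
  have hsin : 0 < Real.sin β := Real.sin_pos_of_pos_of_lt_pi hβ0 hβ1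
  have shift : ∀ F : ℝ → ℝ, (∀ θ, F (θ + 2 * π) = F θ) →
      ∫ θ in (0 : ℝ)..(2 * π), F (θ + 2 * β) = ∫ θ in (0 : ℝ)..(2 * π), F θ := by
    intro F hF
    rw [intervalIntegral.integral_comp_add_right (fun θ => F θ) (2 * β)]
    have hp : Function.Periodic F (2 * π) := hF
    have := hp.intervalIntegral_add_eq (2 * β) 0
    rw [zero_add] at this
    rw [zero_add, add_comm (2 * π) (2 * β)]
    exact this
  have ic : IntervalIntegrable (fun θ => f θ * Real.cos θ) volume 0 (2 * π) :=
    (hf.mul Real.continuous_cos).intervalIntegrable _ _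
  have is : IntervalIntegrable (fun θ => f θ * Real.sin θ) volume 0 (2 * π) :=
    (hf.mul Real.continuous_sin).intervalIntegrable _ _
  set Ic := ∫ θ in (0 : ℝ)..(2 * π), f θ * Real.cos θ with hIc
  set Is := ∫ θ in (0 : ℝ)..(2 * π), f θ * Real.sin θ with hIs
  have e1 : Ic = Real.cos (2 * β) * Ic - Real.sin (2 * β) * Is := by
    have h := shift (fun θ => f θ * Real.cos θ) (fun θ => by
      simp only [h1, Real.cos_add_two_pi])
    rw [← hIc] at h
    refine h.symm.trans ?_
    rw [hIc, hIs, ← intervalIntegral.integral_const_mul, ← intervalIntegral.integral_const_mul,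
      ← intervalIntegral.integral_sub (ic.const_mul _) (is.const_mul _)]
    apply intervalIntegral.integral_congr
    intro θ _
    simp only [h2, Real.cos_add]
    ring
  have e2 : Is = Real.sin (2 * β) * Ic + Real.cos (2 * β) * Is := by
    have h := shift (fun θ => f θ * Real.sin θ) (fun θ => by
      simp only [h1, Real.sin_add_two_pi])
    rw [← hIs] at h
    refine h.symm.trans ?_
    rw [hIc, hIs, ← intervalIntegral.integral_const_mul, ← intervalIntegral.integral_const_mul,
      ← intervalIntegral.integral_add (ic.const_mul _) (is.const_mul _)]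
    apply intervalIntegral.integral_congr
    intro θ _
    simp only [h2, Real.sin_add]
    ring
  rw [Real.cos_two_mul', Real.sin_two_mul] at e1 e2
  have hs := Real.sin_sq_add_cos_sq β
  have hcos : Real.cos β ^ 2 = 1 - Real.sin β ^ 2 := by linarith
  rw [hcos] at e1 e2
  have f1 : Real.sin β * (Real.sin β * Ic + Real.cos β * Is) = 0 := by linarith
  have f2 : Real.sin β * (Real.sin β * Is - Real.cos β * Ic) = 0 := by linarith
  have g1 : Real.sin β * Ic + Real.cos β * Is = 0 := (mul_eq_zero.1 f1).resolve_left hsin.ne'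
  have g2 : Real.sin β * Is - Real.cos β * Ic = 0 := (mul_eq_zero.1 f2).resolve_left hsin.ne'
  constructor
  · linear_combination Real.sin β * g1 - Real.cos β * g2 - Ic * hs
  · linear_combination Real.cos β * g1 + Real.sin β * g2 - Is * hs

theorem const_of_sq {f : ℝ → ℝ} (hf : Continuous f) {K : ℝ} (h : ∀ x, f x ^ 2 = K) :
    ∃ k, ∀ x, f x = k := by
  have hK : 0 ≤ K := by rw [← h 0]; positivity
  rcases hK.lt_or_eq with hK | hK
  · have hs : 0 < √K := Real.sqrt_pos.2 hK
    have := isPreconnected_univ.eq_or_eq_neg_of_sq_eq (f := f) (g := fun _ => √K) (S := univ)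
      hf.continuousOn continuousOn_const
      (fun x _ => by simp only [Pi.pow_apply]; rw [h x, Real.sq_sqrt hK.le])
      (fun {_} _ => hs.ne')
    rcases this with h' | h'
    · exact ⟨√K, fun x => h' (mem_univ x)⟩
    · exact ⟨-√K, fun x => h' (mem_univ x)⟩
  · exact ⟨0, fun x => by
      have := h x
      rw [← hK] at this
      exact (pow_eq_zero_iff two_ne_zero).1 this⟩

theorem const_of_two {g : ℝ → ℝ} (hg : Continuous g) {β₁ β₂ K₁ K₂ : ℝ}
    (h₁0 : 0 < β₁) (h₁1 : β₁ < π) (h₂0 : 0 < β₂) (h₂1 : β₂ < π) (hne : β₁ ≠ β₂)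
    (p₁ : ∀ θ, g (θ + 2 * β₁) = g θ) (p₂ : ∀ θ, g (θ + 2 * β₂) = g θ)
    (q₁ : ∀ θ, g θ ^ 2 + g (θ + β₁) ^ 2 - 2 * Real.cos β₁ * g θ * g (θ + β₁) = K₁)
    (q₂ : ∀ θ, g θ ^ 2 + g (θ + β₂) ^ 2 - 2 * Real.cos β₂ * g θ * g (θ + β₂) = K₂) :
    ∃ k, ∀ x, g x = k := by
  let G : AddSubgroup ℝ :=
    { carrier := {p | ∀ θ, g (θ + p) = g θ}
      zero_mem' := fun θ => by rw [add_zero]
      add_mem' := fun {a b} ha hb θ => by rw [← add_assoc, hb, ha]
      neg_mem' := fun {a} ha θ => by
        have := ha (θ + -a)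
        rw [neg_add_cancel_right] at this
        exact this.symm }
  have hG : ∀ p, p ∈ G ↔ ∀ θ, g (θ + p) = g θ := fun p => Iff.rfl
  -- a period `β` already gives a constant
  have even_case : ∀ β K : ℝ, 0 < β → β < π → β ∈ G →
      (∀ θ, g θ ^ 2 + g (θ + β) ^ 2 - 2 * Real.cos β * g θ * g (θ + β) = K) →
      ∃ k, ∀ x, g x = k := by
    intro β K hβ0 hβ1 hβ hq
    have hcos : Real.cos β < 1 := by
      rw [← Real.cos_zero]
      exact Real.cos_lt_cos_of_nonneg_of_le_pi le_rfl hβ1.le hβ0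
    apply const_of_sq hg (K := K / (2 * (1 - Real.cos β)))
    intro θ
    have h1 := hq θ
    rw [(hG β).1 hβ θ] at h1
    rw [eq_div_iff (by linarith)]
    linear_combination h1
  rcases G.dense_or_cyclic with hd | ⟨a, ha⟩
  · refine ⟨g 0, ?_⟩
    have hcl : IsClosed {p : ℝ | g p = g 0} := isClosed_eq hg continuous_const
    have hsub : (G : Set ℝ) ⊆ {p : ℝ | g p = g 0} := by
      intro p hp
      have := (hG p).1 hp 0
      rw [zero_add] at this
      exact this
    intro x
    have h1 : closure (G : Set ℝ) ⊆ {p : ℝ | g p = g 0} := closure_minimal hsub hcl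
    rw [hd.closure_eq] at h1
    exact h1 (mem_univ x)
  · have hz : ∀ k : ℤ, ∀ θ, g (θ + k * a) = g θ := by
      intro k
      have : (k : ℝ) * a ∈ G := by
        rw [ha, AddSubgroup.mem_closure_singleton]
        exact ⟨k, by simp⟩
      exact (hG _).1 this
    have hk : ∀ β : ℝ, (∀ θ, g (θ + 2 * β) = g θ) → β ∈ G ∨ ∀ θ, g (θ + β) = g (θ + a / 2) := by
      intro β hβ
      have h1 : 2 * β ∈ G := (hG _).2 hβ
      rw [ha, AddSubgroup.mem_closure_singleton] at h1
      obtain ⟨k, hk⟩ := h1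
      rw [zsmul_eq_mul] at hk
      rcases Int.even_or_odd' k with ⟨j, rfl | rfl⟩
      · left
        have h2 : β = j * a := by push_cast at hk; linarith
        rw [hG, h2]
        exact hz j
      · right
        intro θ
        have h2 : β = a / 2 + j * a := by push_cast at hk; linarith
        rw [h2, ← add_assoc, hz j]
    rcases hk β₁ p₁ with h1 | h1
    · exact even_case β₁ K₁ h₁0 h₁1 h1 q₁
    rcases hk β₂ p₂ with h2 | h2
    · exact even_case β₂ K₂ h₂0 h₂1 h2 q₂
    have hcne : Real.cos β₁ ≠ Real.cos β₂ := by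
      intro h
      exact hne (Real.injOn_cos ⟨h₁0.le, h₁1.le⟩ ⟨h₂0.le, h₂1.le⟩ h)
    have hcne' : 2 * (Real.cos β₂ - Real.cos β₁) ≠ 0 := by
      intro h; apply hcne; linarith
    set M : ℝ := (K₁ - K₂) / (2 * (Real.cos β₂ - Real.cos β₁)) with hM
    have hxy : ∀ θ, g θ * g (θ + a / 2) = M := by
      intro θ
      have e1 := q₁ θ
      have e2 := q₂ θ
      rw [h1] at e1
      rw [h2] at e2
      rw [hM, eq_div_iff hcne']
      linear_combination e1 - e2
    have hsum : ∀ θ, g θ ^ 2 + g (θ + a / 2) ^ 2 = K₁ + 2 * Real.cos β₁ * M := by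
      intro θ
      have e1 := q₁ θ
      rw [h1] at e1
      have e3 := hxy θ
      linear_combination e1 + 2 * Real.cos β₁ * e3
    have hg' : Continuous (fun θ => g (θ + a / 2)) := hg.comp (by fun_prop)
    obtain ⟨k1, hk1⟩ := const_of_sq (f := fun θ => g θ + g (θ + a / 2)) (hg.add hg')
      (K := K₁ + 2 * Real.cos β₁ * M + 2 * M) (fun θ => by
        have e1 := hsum θ
        have e2 := hxy θ
        linear_combination e1 + 2 * e2)
    obtain ⟨k2, hk2⟩ := const_of_sq (f := fun θ => g θ - g (θ + a / 2)) (hg.sub hg')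
      (K := K₁ + 2 * Real.cos β₁ * M - 2 * M) (fun θ => by
        have e1 := hsum θ
        have e2 := hxy θ
        linear_combination e1 - 2 * e2)
    refine ⟨(k1 + k2) / 2, fun x => ?_⟩
    have e1 := hk1 x
    have e2 := hk2 x
    linarith

/-! ### A body with constant support function is a disc -/

theorem eq_closedBall {S : Set Plane} (hS : IsCompact S) (hconv : Convex ℝ S) (hne : S.Nonempty) {c : Plane} {ρ : ℝ}
    (h : ∀ θ, supp S θ - dt c θ = ρ) : S = closedBall c ρ := by
  apply Subset.antisymm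
  · intro x hx
    obtain ⟨θ, hθ⟩ := exists_uv (x - c)
    rw [mem_closedBall, dist_eq_norm, ← hθ, dt_sub, ← h θ]
    linarith [le_supp hS hx θ]
  · intro x hx
    by_contra hxS
    obtain ⟨f, u, hfu, hux⟩ := geometric_hahn_banach_closed_point hconv hS.isClosed hxS
    set w := (InnerProductSpace.toDual ℝ Plane).symm f with hw
    have hf : ∀ y, f y = inner ℝ w y := by
      intro y
      rw [hw, InnerProductSpace.toDual_symm_apply]
    obtain ⟨θ, hθ⟩ := exists_uv w
    have hw2 : dt w (θ + π / 2) = 0 := by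
      have := norm_sq_eq w θ
      rw [hθ] at this
      have h2 : dt w (θ + π / 2) ^ 2 = 0 := by linarith
      exact (pow_eq_zero_iff two_ne_zero).1 h2
    have hf' : ∀ y, f y = ‖w‖ * dt y θ := by
      intro y
      rw [hf, inner_eq w y θ, hθ, hw2]; ring
    have hw0 : 0 < ‖w‖ := by
      rcases (norm_nonneg w).lt_or_eq with h' | h'
      · exact h'
      · exfalso
        obtain ⟨s, hs⟩ := hne
        have e1 := hfu s hs
        rw [hf', ← h'] at e1
        rw [hf', ← h'] at hux
        linarith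
    obtain ⟨s, hs, hsθ⟩ := exists_supp hS hne θ
    have e1 := hfu s hs
    rw [hf', hsθ] at e1
    rw [hf'] at hux
    have e2 : supp S θ < dt x θ := by
      have : ‖w‖ * supp S θ < ‖w‖ * dt x θ := e1.trans hux
      exact lt_of_mul_lt_mul_left this hw0.le
    rw [mem_closedBall, dist_eq_norm] at hx
    have e3 := (abs_le.1 (dt_le_norm (x - c) θ)).2
    rw [dt_sub] at e3
    have e4 := h θ
    linarith

/-! ### Two circular isoptics -/

theorem centre_eq {S : Set Plane} (hS : IsCompact S) {c₁ c₂ : Plane} {β₁ β₂ : ℝ}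
    (h₁0 : 0 < β₁) (h₁1 : β₁ < π) (h₂0 : 0 < β₂) (h₂1 : β₂ < π)
    (p₁ : ∀ θ, supp S (θ + 2 * β₁) - dt c₁ (θ + 2 * β₁) = supp S θ - dt c₁ θ)
    (p₂ : ∀ θ, supp S (θ + 2 * β₂) - dt c₂ (θ + 2 * β₂) = supp S θ - dt c₂ θ) : c₁ = c₂ := by
  have k1 : Continuous (fun θ => supp S θ - dt c₁ θ) :=
    (supp_continuous hS).sub (dt_cont_right c₁)
  have k2 : Continuous (fun θ => supp S θ - dt c₂ θ) :=
    (supp_continuous hS).sub (dt_cont_right c₂)
  obtain ⟨a1, b1⟩ := steiner k1 (fun θ => by rw [supp_periodic, dt_add_two_pi]) h₁0 h₁1 p₁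
  obtain ⟨a2, b2⟩ := steiner k2 (fun θ => by rw [supp_periodic, dt_add_two_pi]) h₂0 h₂1 p₂
  have i1c : IntervalIntegrable (fun θ => (supp S θ - dt c₁ θ) * Real.cos θ) volume 0 (2 * π) :=
    (k1.mul Real.continuous_cos).intervalIntegrable _ _
  have i1s : IntervalIntegrable (fun θ => (supp S θ - dt c₁ θ) * Real.sin θ) volume 0 (2 * π) :=
    (k1.mul Real.continuous_sin).intervalIntegrable _ _
  have i2c : IntervalIntegrable (fun θ => (supp S θ - dt c₂ θ) * Real.cos θ) volume 0 (2 * π) :=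
    (k2.mul Real.continuous_cos).intervalIntegrable _ _
  have i2s : IntervalIntegrable (fun θ => (supp S θ - dt c₂ θ) * Real.sin θ) volume 0 (2 * π) :=
    (k2.mul Real.continuous_sin).intervalIntegrable _ _
  have hc : ∫ θ in (0 : ℝ)..(2 * π), dt (c₂ - c₁) θ * Real.cos θ = 0 := by
    have : ∫ θ in (0 : ℝ)..(2 * π), dt (c₂ - c₁) θ * Real.cos θ =
        (∫ θ in (0 : ℝ)..(2 * π), (supp S θ - dt c₁ θ) * Real.cos θ) -
          ∫ θ in (0 : ℝ)..(2 * π), (supp S θ - dt c₂ θ) * Real.cos θ := by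
      rw [← intervalIntegral.integral_sub i1c i2c]
      apply intervalIntegral.integral_congr
      intro θ _
      simp only [dt_sub]
      ring
    rw [this, a1, a2, sub_self]
  have hs : ∫ θ in (0 : ℝ)..(2 * π), dt (c₂ - c₁) θ * Real.sin θ = 0 := by
    have : ∫ θ in (0 : ℝ)..(2 * π), dt (c₂ - c₁) θ * Real.sin θ =
        (∫ θ in (0 : ℝ)..(2 * π), (supp S θ - dt c₁ θ) * Real.sin θ) -
          ∫ θ in (0 : ℝ)..(2 * π), (supp S θ - dt c₂ θ) * Real.sin θ := by
      rw [← intervalIntegral.integral_sub i1s i2s]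
      apply intervalIntegral.integral_congr
      intro θ _
      simp only [dt_sub]
      ring
    rw [this, b1, b2, sub_self]
  set d := c₂ - c₁ with hd
  have j1 : ∫ θ in (0 : ℝ)..(2 * π), dt d θ * Real.cos θ = d 0 * π := by
    have e : ∀ θ, dt d θ * Real.cos θ = d 0 * Real.cos θ ^ 2 + d 1 * (Real.sin θ * Real.cos θ) := by
      intro θ; unfold dt; ring
    simp only [e]
    rw [intervalIntegral.integral_add, intervalIntegral.integral_const_mul,
      intervalIntegral.integral_const_mul, integral_cos_sq, integral_sin_mul_cos₁]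
    · simp only [Real.cos_two_pi, Real.sin_two_pi, Real.cos_zero, Real.sin_zero]
      ring
    · exact (continuous_const.mul (Real.continuous_cos.pow 2)).intervalIntegrable _ _
    · exact (continuous_const.mul
        (Real.continuous_sin.mul Real.continuous_cos)).intervalIntegrable _ _
  have j2 : ∫ θ in (0 : ℝ)..(2 * π), dt d θ * Real.sin θ = d 1 * π := by
    have e : ∀ θ, dt d θ * Real.sin θ = d 0 * (Real.sin θ * Real.cos θ) + d 1 * Real.sin θ ^ 2 := by
      intro θ; unfold dt; ring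
    simp only [e]
    rw [intervalIntegral.integral_add, intervalIntegral.integral_const_mul,
      intervalIntegral.integral_const_mul, integral_sin_sq, integral_sin_mul_cos₁]
    · simp only [Real.cos_two_pi, Real.sin_two_pi, Real.cos_zero, Real.sin_zero]
      ring
    · exact (continuous_const.mul
        (Real.continuous_sin.mul Real.continuous_cos)).intervalIntegrable _ _
    · exact (continuous_const.mul (Real.continuous_sin.pow 2)).intervalIntegrable _ _
  rw [hc] at j1
  rw [hs] at j2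
  have d0 : d 0 = 0 := (mul_eq_zero.1 j1.symm).resolve_right Real.pi_ne_zero
  have d1 : d 1 = 0 := (mul_eq_zero.1 j2.symm).resolve_right Real.pi_ne_zero
  have : d = 0 := by
    ext i
    fin_cases i
    · simpa using d0
    · simpa using d1
  rw [hd, sub_eq_zero] at this
  exact this.symm

theorem disc_of_two {S : Set Plane} (hS : IsCompact S) (hconv : Convex ℝ S) {α₁ α₂ : ℝ}
    (h₁ : α₁ ∈ circularIsoptics S) (h₂ : α₂ ∈ circularIsoptics S) (hne : α₁ ≠ α₂) :
    ∃ (c : Plane) (ρ : ℝ), 0 < ρ ∧ S = closedBall c ρ := by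
  obtain ⟨hα₁, c₁, R₁, hR₁, hc₁⟩ := h₁
  obtain ⟨hα₂, c₂, R₂, hR₂, hc₂⟩ := h₂
  have hSne := nonempty_of_circle hα₁ hR₁ hc₁
  have p₁ := periodic_eq hS hconv hα₁ hR₁ hc₁
  have p₂ := periodic_eq hS hconv hα₂ hR₂ hc₂
  have b10 : 0 < π - α₁ := by linarith [hα₁.2]
  have b11 : π - α₁ < π := by linarith [hα₁.1]
  have b20 : 0 < π - α₂ := by linarith [hα₂.2]
  have b21 : π - α₂ < π := by linarith [hα₂.1]
  have hcc := centre_eq hS b10 b11 b20 b21 p₁ p₂
  subst hcc
  have q₁ := fun θ => (functional_eq hS hconv hα₁ hR₁ hc₁ θ).1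
  have q₂ := fun θ => (functional_eq hS hconv hα₂ hR₂ hc₂ θ).1
  obtain ⟨ρ, hρ⟩ := const_of_two (g := fun θ => supp S θ - dt c₁ θ)
    ((supp_continuous hS).sub (dt_cont_right c₁)) b10 b11 b20 b21
    (fun h => hne (by linarith)) p₁ p₂ q₁ q₂
  have hSb := eq_closedBall hS hconv hSne hρ
  refine ⟨c₁, ρ, ?_, hSb⟩
  have hρ0 : 0 ≤ ρ := by
    by_contra hneg
    push Not at hneg
    rw [hSb, closedBall_eq_empty.2 hneg] at hSne
    exact Set.not_nonempty_empty hSne
  rcases hρ0.lt_or_eq with h | h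
  · exact h
  · exfalso
    have e := q₁ 0
    rw [hρ, hρ, ← h] at e
    have hsin : 0 < Real.sin (π - α₁) := Real.sin_pos_of_pos_of_lt_pi b10 b11
    have : 0 < R₁ ^ 2 * Real.sin (π - α₁) ^ 2 := by positivity
    rw [← e] at this
    norm_num at this

/-! ### Isoptics of a disc -/

theorem angleOfSight_closedBall {c : Plane} {ρ : ℝ} (hρ : 0 < ρ) {P : Plane}
    (hP : ρ < ‖P - c‖) : angleOfSight (closedBall c ρ) P = 2 * Real.arcsin (ρ / ‖P - c‖) := by
  set d := ‖P - c‖ with hd
  have hd0 : 0 < d := hρ.trans hP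
  have hq0 : 0 < ρ / d := div_pos hρ hd0
  have hq1 : ρ / d < 1 := (div_lt_one hd0).2 hP
  set a := Real.arcsin (ρ / d) with ha
  have ha0 : 0 < a := Real.arcsin_pos.2 hq0
  have ha1 : a < π / 2 := Real.arcsin_lt_pi_div_two.2 hq1
  have hsina : Real.sin a = ρ / d := Real.sin_arcsin (le_trans (by norm_num) hq0.le) hq1.le
  have hcosa : 0 < Real.cos a :=
    Real.cos_pos_of_mem_Ioo ⟨lt_trans (neg_lt_zero.2 Real.pi_div_two_pos) ha0, ha1⟩
  have hsd : Real.sin a * d = ρ := by rw [hsina, div_mul_cancel₀ _ hd0.ne']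
  clear hsina
  clear_value a
  clear hq0 hq1
  obtain ⟨ψ, hψ⟩ := exists_uv (c - P)
  have hcP : ‖c - P‖ = d := by rw [hd, norm_sub_rev]
  rw [hcP] at hψ
  have hψ2 : dt (c - P) (ψ + π / 2) = 0 := by
    have := norm_sq_eq (c - P) ψ
    rw [hψ, hcP] at this
    have h2 : dt (c - P) (ψ + π / 2) ^ 2 = 0 := by linarith
    exact (pow_eq_zero_iff two_ne_zero).1 h2
  have hPS : P ∉ closedBall c ρ := by
    rw [mem_closedBall, dist_eq_norm, not_le]; exact hP
  -- components relative to the two normals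
  have n1 : ∀ w : Plane, dt w (ψ + π / 2 + a) =
      dt w (ψ + π / 2) * Real.cos a - dt w ψ * Real.sin a := by
    intro w
    have h := dt_rot w (ψ + π / 2) a
    have e : ψ + π / 2 + π / 2 = ψ + π := by ring
    rw [e, dt_add_pi] at h
    rw [h]; ring
  have n2 : ∀ w : Plane, dt w (ψ - π / 2 - a) =
      -(dt w (ψ + π / 2) * Real.cos a) - dt w ψ * Real.sin a := by
    intro w
    have h := dt_rot w (ψ - π / 2) (-a)
    have e : ψ - π / 2 + π / 2 = ψ := by ring
    have e2 : ψ - π / 2 + π = ψ + π / 2 := by ring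
    have e3 : dt w (ψ - π / 2) = - dt w (ψ + π / 2) := by
      have := dt_add_pi w (ψ - π / 2)
      rw [e2] at this; linarith
    have e4 : ψ - π / 2 + -a = ψ - π / 2 - a := by ring
    rw [e, e3, Real.cos_neg, Real.sin_neg, e4] at h
    rw [h]; ring
  have split : ∀ A, A - P = (A - c) + (c - P) := fun A => by abel
  apply angleOfSight_of_wedge (A := c + ρ • uv (ψ + π / 2 + a)) (B := c + ρ • uv (ψ - π / 2 - a))
    ha0 ha1 hPS
  · intro A hA
    rw [mem_closedBall, dist_eq_norm] at hA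
    have h1 := (abs_le.1 (dt_le_norm (A - c) (ψ + π / 2 + a))).2
    have h2 := n1 (A - P)
    rw [split A, dt_add, n1 (c - P), hψ, hψ2, ← split A] at h2
    rw [Real.tan_eq_sin_div_cos a, div_mul_eq_mul_div, le_div_iff₀ hcosa]
    linear_combination h1 + hA - h2 - hsd
  · intro A hA
    rw [mem_closedBall, dist_eq_norm] at hA
    have h1 := (abs_le.1 (dt_le_norm (A - c) (ψ - π / 2 - a))).2
    have h2 := n2 (A - P)
    rw [split A, dt_add, n2 (c - P), hψ, hψ2, ← split A] at h2
    rw [Real.tan_eq_sin_div_cos a, neg_mul, neg_le, div_mul_eq_mul_div, le_div_iff₀ hcosa]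
    linear_combination h1 + hA - h2 - hsd
  · rw [mem_closedBall, dist_eq_norm, add_sub_cancel_left, norm_smul, norm_uv, mul_one,
      Real.norm_eq_abs, abs_of_pos hρ]
  · rw [mem_closedBall, dist_eq_norm, add_sub_cancel_left, norm_smul, norm_uv, mul_one,
      Real.norm_eq_abs, abs_of_pos hρ]
  · have h2 := n1 (c + ρ • uv (ψ + π / 2 + a) - P)
    have e : c + ρ • uv (ψ + π / 2 + a) - P = ρ • uv (ψ + π / 2 + a) + (c - P) := by abel
    rw [e, dt_add, dt_smul, dt_uv, sub_self, Real.cos_zero, n1 (c - P), hψ, hψ2, ← e] at h2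
    rw [Real.tan_eq_sin_div_cos a, div_mul_eq_mul_div, eq_div_iff hcosa.ne']
    linear_combination -h2 - hsd
  · have h2 := n2 (c + ρ • uv (ψ - π / 2 - a) - P)
    have e : c + ρ • uv (ψ - π / 2 - a) - P = ρ • uv (ψ - π / 2 - a) + (c - P) := by abel
    rw [e, dt_add, dt_smul, dt_uv, sub_self, Real.cos_zero, n2 (c - P), hψ, hψ2, ← e] at h2
    rw [Real.tan_eq_sin_div_cos a, neg_mul, div_mul_eq_mul_div, ← neg_div, eq_div_iff hcosa.ne']
    linear_combination h2 + hsd

theorem isoptic_closedBall {c : Plane} {ρ : ℝ} (hρ : 0 < ρ) {α : ℝ} (hα : α ∈ Ioo 0 π) :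
    isoptic (closedBall c ρ) α = sphere c (ρ / Real.sin (α / 2)) := by
  have hα1 := hα.1
  have hα2 := hα.2
  have hsin : 0 < Real.sin (α / 2) :=
    Real.sin_pos_of_pos_of_lt_pi (by linarith) (by linarith)
  have hsin1 : Real.sin (α / 2) < 1 := by
    rw [← Real.sin_pi_div_two]
    exact Real.sin_lt_sin_of_lt_of_le_pi_div_two (by linarith) le_rfl (by linarith)
  ext P
  rw [Metric.mem_sphere, dist_eq_norm]
  constructor
  · rintro ⟨hP, hang⟩
    rw [mem_closedBall, dist_eq_norm, not_le] at hP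
    have hd0 : 0 < ‖P - c‖ := hρ.trans hP
    rw [angleOfSight_closedBall hρ hP] at hang
    have h1 : Real.arcsin (ρ / ‖P - c‖) = α / 2 := by linarith
    have h2 : ρ / ‖P - c‖ = Real.sin (α / 2) := by
      rw [← h1, Real.sin_arcsin]
      · have := div_pos hρ hd0; linarith
      · exact ((div_lt_one hd0).2 hP).le
    rw [← h2]
    field_simp
  · intro h
    have hP : ρ < ‖P - c‖ := by
      rw [h, lt_div_iff₀ hsin]
      nlinarith
    refine ⟨?_, ?_⟩
    · rw [mem_closedBall, dist_eq_norm, not_le]; exact hP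
    · rw [angleOfSight_closedBall hρ hP, h]
      have h3 : ρ / (ρ / Real.sin (α / 2)) = Real.sin (α / 2) := by field_simp
      rw [h3, Real.arcsin_sin (by linarith) (by linarith)]
      ring

end Pool.Agent.Isoptic
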