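import Pool.Agent.Isoptic.Angle

set_option autoImplicit false

open Real Set Metric EuclideanGeometry MeasureTheory

namespace Pool.Agent.Isoptic

/-- the support function -/
noncomputable def supp (S : Set Plane) (θ : ℝ) : ℝ := sSup ((fun x => dt x θ) '' S)

theorem dt_cont_left (θ : ℝ) : Continuous (fun x : Plane => dt x θ) :=
  dt_continuous.comp (by fun_prop : Continuous (fun x : Plane => (x, θ)))

theorem dt_cont_right (x : Plane) : Continuous (fun θ : ℝ => dt x θ) :=
  dt_continuous.comp (by fun_prop : Continuous (fun θ : ℝ => (x, θ)))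

theorem le_supp {S : Set Plane} (hS : IsCompact S) {x : Plane} (hx : x ∈ S) (θ : ℝ) :
    dt x θ ≤ supp S θ :=
  le_csSup (hS.image (dt_cont_left θ)).bddAbove ⟨x, hx, rfl⟩

theorem exists_supp {S : Set Plane} (hS : IsCompact S) (hne : S.Nonempty) (θ : ℝ) :
    ∃ x ∈ S, dt x θ = supp S θ := by
  obtain ⟨x, hx, h⟩ := (hS.image (dt_cont_left θ)).sSup_mem (hne.image _)
  exact ⟨x, hx, h⟩

theorem supp_continuous {S : Set Plane} (hS : IsCompact S) : Continuous (supp S) := by
  have h : Continuous (Function.uncurry (fun (θ : ℝ) (x : Plane) => dt x θ)) := by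
    have : (Function.uncurry (fun (θ : ℝ) (x : Plane) => dt x θ)) =
        (fun p : Plane × ℝ => dt p.1 p.2) ∘ Prod.swap := by
      funext p; rfl
    rw [this]
    exact dt_continuous.comp continuous_swap
  exact hS.continuous_sSup h

theorem supp_periodic (S : Set Plane) (θ : ℝ) : supp S (θ + 2 * π) = supp S θ := by
  unfold supp
  simp only [dt_add_two_pi]

theorem dt_sum_identity (w : Plane) (η β : ℝ) :
    dt w (η + β) + dt w (η - β) = 2 * Real.cos β * dt w η := by
  unfold dt
  rw [Real.cos_add, Real.sin_add, Real.cos_sub, Real.sin_sub]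
  ring

/-- The wedge inequalities in terms of the two normals. -/
theorem wedge_left (w : Plane) (θ a : ℝ) :
    dt w θ = Real.cos a * dt w ((θ - π / 2 - a) + π / 2) - Real.sin a * dt w (θ - π / 2 - a) := by
  have h := dt_rot w (θ - π / 2 - a) (π / 2 + a)
  have e : θ - π / 2 - a + (π / 2 + a) = θ := by ring
  have e1 : π / 2 + a = a + π / 2 := by ring
  rw [e, e1, Real.cos_add_pi_div_two, Real.sin_add_pi_div_two] at h
  rw [h]; ring

theorem wedge_right (w : Plane) (θ a : ℝ) :
    dt w (θ + (π - 2 * a)) =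
      -(Real.cos a * dt w ((θ - π / 2 - a) + π / 2)) - Real.sin a * dt w (θ - π / 2 - a) := by
  have h := dt_rot w (θ - π / 2 - a) (-(π / 2 + a))
  have e : θ - π / 2 - a + -(π / 2 + a) + 2 * π = θ + (π - 2 * a) := by ring
  have e1 : π / 2 + a = a + π / 2 := by ring
  rw [← e, dt_add_two_pi, h, Real.cos_neg, Real.sin_neg, e1, Real.cos_add_pi_div_two,
    Real.sin_add_pi_div_two]
  ring

section circle

variable {S : Set Plane} {α R : ℝ} {c : Plane}

theorem nonempty_of_circle (hα : α ∈ Ioo 0 π) (hR : 0 < R) (hcirc : isoptic S α = sphere c R) :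
    S.Nonempty := by
  rw [Set.nonempty_iff_ne_empty]
  rintro rfl
  have h1 : c + R • uv 0 ∈ sphere c R := by
    rw [Metric.mem_sphere, dist_eq_norm, add_sub_cancel_left, norm_smul, norm_uv, mul_one,
      Real.norm_eq_abs, abs_of_pos hR]
  rw [← hcirc] at h1
  have h2 : angleOfSight (∅ : Set Plane) (c + R • uv 0) = 0 := by
    unfold angleOfSight
    simp
  have h3 := h1.2
  rw [h2] at h3
  exact hα.1.ne h3

/-- The body lies in the open disc bounded by the circle. -/
theorem subset_ball (hS : IsCompact S) (hconv : Convex ℝ S) (hα : α ∈ Ioo 0 π) (hR : 0 < R)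
    (hcirc : isoptic S α = sphere c R) : S ⊆ ball c R := by
  have hne := nonempty_of_circle hα hR hcirc
  have hdisj : ∀ x ∈ S, ‖x - c‖ ≠ R := by
    intro x hx h
    have : x ∈ sphere c R := by rw [Metric.mem_sphere, dist_eq_norm, h]
    rw [← hcirc] at this
    exact this.1 hx
  by_contra hnot
  -- all points are outside
  have hout : ∀ x ∈ S, R < ‖x - c‖ := by
    rw [Set.not_subset] at hnot
    obtain ⟨y, hy, hyR⟩ := hnot
    rw [mem_ball, dist_eq_norm, not_lt] at hyR
    have hyR' : R < ‖y - c‖ := lt_of_le_of_ne hyR (hdisj y hy).symm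
    intro x hx
    by_contra hx'
    push Not at hx'
    have hf : Continuous (fun x : Plane => ‖x - c‖) := by fun_prop
    have := hconv.isPreconnected.intermediate_value hx hy hf.continuousOn ⟨hx', hyR'.le⟩
    obtain ⟨z, hz, hzR⟩ := this
    exact hdisj z hz hzR
  -- nearest point
  have hf : Continuous (fun x : Plane => ‖x - c‖) := by fun_prop
  obtain ⟨x0, hx0, hmin⟩ := hS.exists_isMinOn hne hf.continuousOn
  rw [isMinOn_iff] at hmin
  set d := ‖x0 - c‖ with hd
  have hdR : R < d := hout x0 hx0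
  obtain ⟨ψ, hψ⟩ := exists_uv (x0 - c)
  have hY0 : dt (x0 - c) (ψ + π / 2) = 0 := by
    have := norm_sq_eq (x0 - c) ψ
    rw [hψ] at this
    have h2 : dt (x0 - c) (ψ + π / 2) ^ 2 = 0 := by linarith
    exact (pow_eq_zero_iff two_ne_zero).1 h2
  have hproj : ∀ A ∈ S, d ≤ dt (A - c) ψ := by
    intro A hA
    -- `‖x0 + t (A - x0) - c‖ ≥ d`
    by_contra hlt
    push Not at hlt
    set X := dt (A - c) ψ with hX
    have hinn : inner ℝ (x0 - c) (A - x0) = d * (X - d) := by
      rw [inner_eq _ _ ψ, hψ, hY0, zero_mul, add_zero]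
      have : A - x0 = (A - c) - (x0 - c) := by abel
      rw [this, dt_sub, hψ]
    have hd0 : 0 < d := hR.trans hdR
    have hneg : inner ℝ (x0 - c) (A - x0) < 0 := by
      rw [hinn]; nlinarith
    set N := ‖A - x0‖ ^ 2 with hN
    have hN0 : 0 ≤ N := by positivity
    set I := inner ℝ (x0 - c) (A - x0) with hI
    set t := min 1 (-I / (N + 1)) with ht
    have ht0 : 0 < t := lt_min one_pos (div_pos (by linarith) (by linarith))
    have ht1 : t ≤ 1 := min_le_left _ _
    have ht2 : t * (N + 1) ≤ -I := by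
      have := min_le_right 1 (-I / (N + 1))
      rwa [← ht, le_div_iff₀ (by linarith)] at this
    have hmem : x0 + t • (A - x0) ∈ S := hconv.add_smul_sub_mem hx0 hA ⟨ht0.le, ht1⟩
    have h1 := hmin _ hmem
    have h2 : ‖x0 + t • (A - x0) - c‖ ^ 2 = d ^ 2 + 2 * t * I + t ^ 2 * N := by
      have : x0 + t • (A - x0) - c = (x0 - c) + t • (A - x0) := by abel
      rw [this, norm_add_sq_real, inner_smul_right, norm_smul, Real.norm_eq_abs, mul_pow, sq_abs]
      ring
    have h3 : d ^ 2 ≤ ‖x0 + t • (A - x0) - c‖ ^ 2 := pow_le_pow_left₀ hd0.le h1 2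
    rw [h2] at h3
    nlinarith
  -- the two antipodal points
  have hP1 : c + R • uv ψ ∈ isoptic S α := by
    rw [hcirc, Metric.mem_sphere, dist_eq_norm, add_sub_cancel_left, norm_smul, norm_uv, mul_one,
      Real.norm_eq_abs, abs_of_pos hR]
  have hP2 : c - R • uv ψ ∈ isoptic S α := by
    rw [hcirc, Metric.mem_sphere, dist_eq_norm, sub_sub_cancel_left, norm_neg, norm_smul, norm_uv,
      mul_one, Real.norm_eq_abs, abs_of_pos hR]
  set P1 := c + R • uv ψ with hP1d
  set P2 := c - R • uv ψ with hP2d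
  have hX1 : ∀ A, dt (A - P1) ψ = dt (A - c) ψ - R := by
    intro A
    have : A - P1 = (A - c) - R • uv ψ := by rw [hP1d]; abel
    rw [this, dt_sub, dt_smul, dt_uv, sub_self, Real.cos_zero, mul_one]
  have hX2 : ∀ A, dt (A - P2) ψ = dt (A - c) ψ + R := by
    intro A
    have : A - P2 = (A - c) + R • uv ψ := by rw [hP2d]; abel
    rw [this, dt_add, dt_smul, dt_uv, sub_self, Real.cos_zero, mul_one]
  have huv : dt (uv ψ) (ψ + π / 2) = 0 := by
    rw [dt_uv]
    have : ψ - (ψ + π / 2) = -(π / 2) := by ring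
    rw [this, Real.cos_neg, Real.cos_pi_div_two]
  have hY1 : ∀ A, dt (A - P1) (ψ + π / 2) = dt (A - c) (ψ + π / 2) := by
    intro A
    have : A - P1 = (A - c) - R • uv ψ := by rw [hP1d]; abel
    rw [this, dt_sub, dt_smul, huv, mul_zero, sub_zero]
  have hY2 : ∀ A, dt (A - P2) (ψ + π / 2) = dt (A - c) (ψ + π / 2) := by
    intro A
    have : A - P2 = (A - c) + R • uv ψ := by rw [hP2d]; abel
    rw [this, dt_add, dt_smul, huv, mul_zero, add_zero]
  have hpos1 : ∀ A ∈ S, 0 < dt (A - P1) ψ := by
    intro A hA; rw [hX1]; linarith [hproj A hA]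
  have hpos2 : ∀ A ∈ S, 0 < dt (A - P2) ψ := by
    intro A hA; rw [hX2]; linarith [hproj A hA]
  set f1 : Plane → ℝ := fun A => Real.arctan (dt (A - P1) (ψ + π / 2) / dt (A - P1) ψ) with hf1
  set f2 : Plane → ℝ := fun A => Real.arctan (dt (A - P2) (ψ + π / 2) / dt (A - P2) ψ) with hf2
  have hf1x0 : f1 x0 = 0 := by
    simp only [hf1, hY1, hY0, zero_div, Real.arctan_zero]
  have hle : ∀ A ∈ S, ∀ B ∈ S, |f1 A - f1 B| ≤ α := by
    intro A hA B hB
    have := le_angleOfSight (P := P1) hA hB
    rw [hP1.2, angle_def, angle_eq_arctan (hpos1 A hA) (hpos1 B hB)] at this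
    exact this
  have hsgn : ∀ A ∈ S, (0 < f2 A → f2 A < f1 A) ∧ (f2 A < 0 → f1 A < f2 A) := by
    intro A hA
    have p1 := hpos1 A hA
    have p2 := hpos2 A hA
    have p12 : dt (A - P1) ψ < dt (A - P2) ψ := by rw [hX1, hX2]; linarith
    constructor
    · intro h
      have hY : 0 < dt (A - c) (ψ + π / 2) := by
        rw [hf2] at h
        simp only [Real.arctan_pos, hY2] at h
        exact (div_pos_iff_of_pos_right p2).1 h
      simp only [hf1, hf2, hY1, hY2]
      apply Real.arctan_strictMono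
      exact div_lt_div_of_pos_left hY p1 p12
    · intro h
      have hY : dt (A - c) (ψ + π / 2) < 0 := by
        rw [hf2] at h
        simp only [Real.arctan_lt_zero, hY2] at h
        have h' := (div_lt_iff₀ p2).1 h
        rwa [zero_mul] at h'
      simp only [hf1, hf2, hY1, hY2]
      apply Real.arctan_strictMono
      rw [div_lt_div_iff₀ p1 p2]
      exact mul_lt_mul_of_neg_left p12 hY
  -- main contradiction
  have key : ∀ A ∈ S, ∀ B ∈ S, f2 A - f2 B ≠ α := by
    intro A hA B hB hAB
    have hα0 := hα.1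
    have sA := hsgn A hA
    have sB := hsgn B hB
    have l1 := (abs_le.1 (hle A hA B hB)).2
    have l2 := (abs_le.1 (hle A hA x0 hx0)).2
    have l3 := (abs_le.1 (hle B hB x0 hx0)).1
    rw [hf1x0] at l2 l3
    rcases lt_trichotomy 0 (f2 A) with h1 | h1 | h1
    · have e1 := sA.1 h1
      rcases lt_trichotomy 0 (f2 B) with h2 | h2 | h2
      · linarith
      · linarith
      · have e2 := sB.2 h2
        linarith
    · have h2 : f2 B < 0 := by linarith
      have e2 := sB.2 h2
      linarith
    · have h2 : f2 B < 0 := by linarith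
      have e2 := sB.2 h2
      linarith
  obtain ⟨A, hA, B, hB, hAB⟩ := exists_angleOfSight hS hne hP2.1
  rw [hP2.2, angle_def, angle_eq_arctan (hpos2 A hA) (hpos2 B hB)] at hAB
  rcases abs_choice (f2 A - f2 B) with h | h
  · exact key A hA B hB (by rw [← h]; exact hAB)
  · apply key B hB A hA
    have : f2 B - f2 A = -(f2 A - f2 B) := by ring
    rw [this, ← h]; exact hAB

/-- The functional equations of the support function (relative to the centre `c`) of a body with a
circular isoptic. -/
theorem functional_eq (hS : IsCompact S) (hconv : Convex ℝ S) (hα : α ∈ Ioo 0 π) (hR : 0 < R)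
    (hcirc : isoptic S α = sphere c R) (θ : ℝ) :
    (supp S θ - dt c θ) ^ 2 + (supp S (θ + (π - α)) - dt c (θ + (π - α))) ^ 2
      - 2 * Real.cos (π - α) * (supp S θ - dt c θ) *
        (supp S (θ + (π - α)) - dt c (θ + (π - α))) = R ^ 2 * Real.sin (π - α) ^ 2 ∧
    2 * Real.cos (π - α) * (supp S (θ + (π - α)) - dt c (θ + (π - α))) - (supp S θ - dt c θ) <
      supp S (θ + (π - α) + (π - α)) - dt c (θ + (π - α) + (π - α)) := by
  have hne := nonempty_of_circle hα hR hcirc
  have hball := subset_ball hS hconv hα hR hcirc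
  set β := π - α with hβ
  set a := α / 2 with ha
  have hα1 := hα.1
  have hα2 := hα.2
  have ha0 : 0 < a := by rw [ha]; linarith
  have ha1 : a < π / 2 := by rw [ha]; linarith
  have hβa : β = π - 2 * a := by rw [hβ, ha]; ring
  have hβ0 : 0 < β := by rw [hβ]; linarith
  have hβ1 : β < π := by rw [hβ]; linarith
  have hsin : 0 < Real.sin β := Real.sin_pos_of_pos_of_lt_pi hβ0 hβ1
  have hcosa : 0 < Real.cos a := Real.cos_pos_of_mem_Ioo ⟨by linarith, ha1⟩
  have hsina : 0 < Real.sin a := Real.sin_pos_of_pos_of_lt_pi ha0 (by linarith)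
  have htan : Real.tan a = Real.sin a / Real.cos a := Real.tan_eq_sin_div_cos a
  have htan0 : 0 < Real.tan a := Real.tan_pos_of_pos_of_lt_pi_div_two ha0 ha1
  set g0 := supp S θ - dt c θ with hg0
  set g1 := supp S (θ + β) - dt c (θ + β) with hg1
  set q := (g1 - g0 * Real.cos β) / Real.sin β with hq
  set P := c + g0 • uv θ + q • uv (θ + π / 2) with hP
  have hPc : P - c = g0 • uv θ + q • uv (θ + π / 2) := by rw [hP]; abel
  have dP0 : dt (P - c) θ = g0 := by
    rw [hPc, dt_add, dt_smul, dt_smul, dt_uv, dt_uv, sub_self, Real.cos_zero]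
    have : θ + π / 2 - θ = π / 2 := by ring
    rw [this, Real.cos_pi_div_two]; ring
  have dP1 : dt (P - c) (θ + π / 2) = q := by
    rw [hPc, dt_add, dt_smul, dt_smul, dt_uv, dt_uv, sub_self, Real.cos_zero]
    have : θ - (θ + π / 2) = -(π / 2) := by ring
    rw [this, Real.cos_neg, Real.cos_pi_div_two]; ring
  have dPβ : dt (P - c) (θ + β) = g1 := by
    rw [dt_rot, dP0, dP1, hq]
    field_simp
    ring
  have dPθ : dt P θ = supp S θ := by
    rw [dt_sub] at dP0; linarith
  have dPθβ : dt P (θ + β) = supp S (θ + β) := by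
    rw [dt_sub] at dPβ; linarith
  -- wedge inequalities
  set ψ := θ - π / 2 - a with hψ
  have wl : ∀ w, dt w θ = Real.cos a * dt w (ψ + π / 2) - Real.sin a * dt w ψ :=
    fun w => wedge_left w θ a
  have wr : ∀ w, dt w (θ + β) = -(Real.cos a * dt w (ψ + π / 2)) - Real.sin a * dt w ψ := by
    intro w; rw [hβa]; exact wedge_right w θ a
  have hle0 : ∀ A ∈ S, dt (A - P) θ ≤ 0 := by
    intro A hA
    rw [dt_sub, dPθ]; linarith [le_supp hS hA θ]
  have hle1 : ∀ A ∈ S, dt (A - P) (θ + β) ≤ 0 := by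
    intro A hA
    rw [dt_sub, dPθβ]; linarith [le_supp hS hA (θ + β)]
  have wu : ∀ A ∈ S, dt (A - P) (ψ + π / 2) ≤ Real.tan a * dt (A - P) ψ := by
    intro A hA
    have := hle0 A hA
    rw [wl] at this
    rw [htan, div_mul_eq_mul_div, le_div_iff₀ hcosa]
    linarith
  have wd : ∀ A ∈ S, -(Real.tan a) * dt (A - P) ψ ≤ dt (A - P) (ψ + π / 2) := by
    intro A hA
    have := hle1 A hA
    rw [wr] at this
    rw [htan, neg_mul, neg_le, div_mul_eq_mul_div, le_div_iff₀ hcosa]
    linarith
  -- `P ∉ S`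
  have hPS : P ∉ S := by
    intro hPS
    have h1 := hball hPS
    rw [mem_ball, dist_eq_norm] at h1
    have hf : Continuous (fun t : ℝ => ‖P - t • uv ψ - c‖) := by fun_prop
    have h2 : R ∈ Icc (‖P - (0 : ℝ) • uv ψ - c‖) (‖P - (2 * R) • uv ψ - c‖) := by
      constructor
      · rw [zero_smul, sub_zero]; exact h1.le
      · have h3 : (2 * R) • uv ψ = (P - c) - (P - (2 * R) • uv ψ - c) := by abel
        have h4 : ‖(2 * R) • uv ψ‖ = 2 * R := by
          rw [norm_smul, norm_uv, mul_one, Real.norm_eq_abs, abs_of_pos (by linarith)]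
        have h5 := norm_sub_le (P - c) (P - (2 * R) • uv ψ - c)
        rw [← h3, h4] at h5
        linarith
    obtain ⟨t, ht, htR⟩ := intermediate_value_Icc (by linarith : (0 : ℝ) ≤ 2 * R)
      hf.continuousOn h2
    simp only at htR
    have ht0 : 0 < t := by
      rcases ht.1.lt_or_eq with h | h
      · exact h
      · exfalso
        rw [← h, zero_smul, sub_zero] at htR
        linarith
    have hQ : P - t • uv ψ ∈ isoptic S α := by
      rw [hcirc, Metric.mem_sphere, dist_eq_norm, htR]
    have hXQ : ∀ A, dt (A - (P - t • uv ψ)) ψ = dt (A - P) ψ + t := by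
      intro A
      have : A - (P - t • uv ψ) = (A - P) + t • uv ψ := by abel
      rw [this, dt_add, dt_smul, dt_uv, sub_self, Real.cos_zero, mul_one]
    have hYQ : ∀ A, dt (A - (P - t • uv ψ)) (ψ + π / 2) = dt (A - P) (ψ + π / 2) := by
      intro A
      have : A - (P - t • uv ψ) = (A - P) + t • uv ψ := by abel
      rw [this, dt_add, dt_smul, dt_uv]
      have : ψ - (ψ + π / 2) = -(π / 2) := by ring
      rw [this, Real.cos_neg, Real.cos_pi_div_two]; ring
    have hlt := angleOfSight_lt_of_wedge hS (P := P - t • uv ψ) (ψ := ψ) ha0 ha1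
      (by
        intro A hA
        rw [hXQ, hYQ]
        have := wu A hA
        nlinarith)
      (by
        intro A hA
        rw [hXQ, hYQ]
        have := wd A hA
        nlinarith)
    rw [hQ.2] at hlt
    rw [ha] at hlt
    linarith
  -- the angle of sight at `P`
  obtain ⟨A, hA, hAs⟩ := exists_supp hS hne θ
  obtain ⟨B, hB, hBs⟩ := exists_supp hS hne (θ + β)
  have hangle : angleOfSight S P = 2 * a := by
    apply angleOfSight_of_wedge ha0 ha1 hPS wu wd hA hB
    · have h1 : dt (A - P) θ = 0 := by rw [dt_sub, dPθ, hAs, sub_self]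
      rw [wl] at h1
      rw [htan, div_mul_eq_mul_div, eq_div_iff hcosa.ne']
      linarith
    · have h1 : dt (B - P) (θ + β) = 0 := by rw [dt_sub, dPθβ, hBs, sub_self]
      rw [wr] at h1
      rw [htan, neg_mul, div_mul_eq_mul_div, ← neg_div, eq_div_iff hcosa.ne']
      linarith
  have hPC : ‖P - c‖ = R := by
    have : P ∈ isoptic S α := ⟨hPS, by rw [hangle, ha]; ring⟩
    rw [hcirc, Metric.mem_sphere, dist_eq_norm] at this
    exact this
  constructor
  · have h1 := norm_sq_eq (P - c) θ
    rw [hPC, dP0, dP1] at h1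
    have h2 : q * Real.sin β = g1 - g0 * Real.cos β := by
      rw [hq]; field_simp
    have h3 : (q * Real.sin β) ^ 2 = (g1 - g0 * Real.cos β) ^ 2 := by rw [h2]
    have h4 := Real.sin_sq_add_cos_sq β
    have h5 : R ^ 2 * Real.sin β ^ 2 = g0 ^ 2 * Real.sin β ^ 2 + (q * Real.sin β) ^ 2 := by
      rw [h1]; ring
    rw [h5, h3]
    linear_combination (-g0 ^ 2) * h4
  · -- strict inequality
    set w := B - P with hw
    have w0 : dt w (θ + β) = 0 := by rw [hw, dt_sub, dPθβ, hBs, sub_self]
    have wne : w ≠ 0 := by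
      intro h
      rw [hw, sub_eq_zero] at h
      rw [h] at hB
      exact hPS hB
    have w1 := norm_sq_eq w (θ + β)
    rw [w0] at w1
    set s := dt w (θ + β + π / 2) with hs
    have s_ne : s ≠ 0 := by
      intro h
      rw [h] at w1
      have : ‖w‖ = 0 := by
        have h' : ‖w‖ ^ 2 = 0 := by rw [w1]; ring
        exact (pow_eq_zero_iff two_ne_zero).1 h'
      exact wne (norm_eq_zero.1 this)
    have w2 := dt_rot w (θ + β) (-β)
    rw [w0, Real.cos_neg, Real.sin_neg, ← hs] at w2
    have e1 : θ + β + -β = θ := by ring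
    rw [e1] at w2
    have w3 := hle0 B hB
    rw [← hw, w2] at w3
    have s_pos : 0 < s := by
      rcases lt_trichotomy s 0 with h | h | h
      · nlinarith
      · exact absurd h s_ne
      · exact h
    have w4 := dt_rot w (θ + β) β
    rw [w0, ← hs] at w4
    have w5 : 0 < dt w (θ + β + β) := by
      rw [w4]
      have := mul_pos s_pos hsin
      linarith
    have w6 : dt P (θ + β + β) < supp S (θ + β + β) := by
      have := le_supp hS hB (θ + β + β)
      rw [hw, dt_sub] at w5
      linarith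
    have w7 := dt_sum_identity (P - c) (θ + β) β
    rw [dPβ] at w7
    have e2 : θ + β - β = θ := by ring
    rw [e2, dP0, dt_sub] at w7
    linarith

/-- Periodicity. -/
theorem periodic_eq (hS : IsCompact S) (hconv : Convex ℝ S) (hα : α ∈ Ioo 0 π) (hR : 0 < R)
    (hcirc : isoptic S α = sphere c R) (θ : ℝ) :
    supp S (θ + 2 * (π - α)) - dt c (θ + 2 * (π - α)) = supp S θ - dt c θ := by
  obtain ⟨h1, h2⟩ := functional_eq hS hconv hα hR hcirc θ
  obtain ⟨h3, -⟩ := functional_eq hS hconv hα hR hcirc (θ + (π - α))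
  have e : θ + 2 * (π - α) = θ + (π - α) + (π - α) := by ring
  rw [e]
  set g0 := supp S θ - dt c θ
  set g1 := supp S (θ + (π - α)) - dt c (θ + (π - α))
  set g2 := supp S (θ + (π - α) + (π - α)) - dt c (θ + (π - α) + (π - α))
  have h4 : (g2 - g0) * (g2 + g0 - 2 * Real.cos (π - α) * g1) = 0 := by
    linear_combination h3 - h1
  rcases mul_eq_zero.1 h4 with h | h
  · linarith
  · exfalso; linarith

end circle

end Pool.Agent.Isoptic
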